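import Pool.Agent.X169.HT.Pert

/-! The centre is fixed. -/

set_option autoImplicit false

open Set Filter Topology Metric Function MeasureTheory

noncomputable section

namespace Pool.Agent.X169.HT

open Pool.Agent.Y485.HS Pool.Agent.Y489.SP

/-- the grid of mesh `δ` -/
def Grid (n : ℕ) (δ : ℝ) : Set (E n) := {w | ∃ i : Fin n, ∃ m : ℤ, w i = m * δ}

theorem grid_closed (n : ℕ) (δ : ℝ) (hδ : 0 < δ) : IsClosed (Grid n δ) := by
  have h1 : Grid n δ = ⋃ i : Fin n, (fun w : E n => w i / δ) ⁻¹' (range ((↑) : ℤ → ℝ)) := by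
    ext w
    simp only [Grid, mem_ofPred_eq, mem_iUnion, mem_preimage, mem_range]
    refine exists_congr fun i => exists_congr fun m => ?_
    rw [eq_div_iff hδ.ne']
    exact eq_comm
  rw [h1]
  refine isClosed_iUnion_of_finite fun i => ?_
  refine Int.isClosedEmbedding_coe_real.isClosed_range.preimage ?_
  fun_prop

theorem grid_null (n : ℕ) (δ : ℝ) : volume (Grid n δ) = 0 := by
  have h1 : Grid n δ = ⋃ i : Fin n, ⋃ m : ℤ, {w : E n | w i = m * δ} := by
    ext w
    simp [Grid]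
  rw [h1]
  refine measure_iUnion_null fun i => measure_iUnion_null fun m => ?_
  have h2 : {w : E n | w i = m * δ} =
      (WithLp.ofLp : E n → (Fin n → ℝ)) ⁻¹' ((Function.eval i) ⁻¹' {(m : ℝ) * δ}) := by
    ext w
    simp
  rw [h2, (PiLp.volume_preserving_ofLp (Fin n)).measure_preimage]
  · rw [volume_pi]
    exact Measure.pi_hyperplane _ i _
  · exact ((measurable_pi_apply i) (measurableSet_singleton _)).nullMeasurableSet

/-- the cells -/
theorem exists_cell (n : ℕ) (δ : ℝ) (hδ : 0 < δ) : ∃ e : E n → ℕ,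
    (∀ w, w ∉ Grid n δ → ∀ᶠ w' in 𝓝 w, e w' = e w) ∧
    ∀ w w', e w = e w' → dist w w' ≤ n * δ := by
  obtain ⟨f, hf⟩ := exists_injective_nat (Fin n → ℤ)
  refine ⟨fun w => f fun i => ⌊w i / δ⌋, fun w hw => ?_, fun w w' h => ?_⟩
  · have h1 : ∀ i : Fin n, ∀ᶠ w' : E n in 𝓝 w, ⌊w' i / δ⌋ = ⌊w i / δ⌋ := by
      intro i
      have h2 : (⌊w i / δ⌋ : ℝ) < w i / δ := by
        refine lt_of_le_of_ne (Int.floor_le _) fun h => hw ⟨i, ⌊w i / δ⌋, ?_⟩
        rw [h]
        field_simp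
      have h3 : w i / δ < ⌊w i / δ⌋ + 1 := Int.lt_floor_add_one _
      have hc : Tendsto (fun w' : E n => w' i / δ) (𝓝 w) (𝓝 (w i / δ)) := by
        have : Continuous fun w' : E n => w' i / δ := by fun_prop
        exact this.tendsto w
      filter_upwards [hc.eventually (lt_mem_nhds h2), hc.eventually (gt_mem_nhds h3)] with w' h4 h5
      exact Int.floor_eq_iff.2 ⟨h4.le, h5⟩
    filter_upwards [eventually_all.2 h1] with w' hw'
    congr 1
    funext i
    exact hw' i
  · have h1 := hf h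
    have h2 : ∀ i : Fin n, |w i - w' i| ≤ δ := by
      intro i
      have h3 : ⌊w i / δ⌋ = ⌊w' i / δ⌋ := congrFun h1 i
      have h4 := Int.floor_le (w i / δ)
      have h5 := Int.lt_floor_add_one (w i / δ)
      have h6 := Int.floor_le (w' i / δ)
      have h7 := Int.lt_floor_add_one (w' i / δ)
      rw [h3] at h4 h5
      have h8 : |w i / δ - w' i / δ| ≤ 1 := by
        rw [abs_le]
        constructor <;> linarith
      rw [← sub_div, abs_div, abs_of_pos hδ, div_le_one hδ] at h8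
      exact h8
    rw [EuclideanSpace.dist_eq]
    refine Real.sqrt_le_iff.2 ⟨by positivity, ?_⟩
    have h9 : ∀ i : Fin n, dist (w i) (w' i) ^ 2 ≤ δ ^ 2 := fun i => by
      rw [Real.dist_eq]
      exact pow_le_pow_left₀ (abs_nonneg _) (h2 i) 2
    calc ∑ i : Fin n, dist (w i) (w' i) ^ 2 ≤ ∑ _i : Fin n, δ ^ 2 :=
          Finset.sum_le_sum fun i _ => h9 i
      _ = n * δ ^ 2 := by simp
      _ ≤ (n * δ) ^ 2 := by
        rw [mul_pow]
        refine mul_le_mul_of_nonneg_right ?_ (by positivity)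
        rcases Nat.eq_zero_or_pos n with h0 | h0
        · subst h0
          simp
        · have : (1 : ℝ) ≤ n := by exact_mod_cast h0
          nlinarith

/-- cyclic partition of an invariant compact set which avoids the grid -/
theorem cyc {p n : ℕ} [Fact p.Prime] {U : ZMod p → E n → E n} (hU : CAct p n U)
    (Φ : Set (E n)) (hΦ : IsCompact Φ) (hΦ3 : Φ ⊆ closedBall 0 3)
    (hinv : ∀ i, ∀ x ∈ Φ, U i x ∈ Φ) (δ : ℝ) (hδ : 0 < δ) (hgrid : ∀ x ∈ Φ, x ∉ Grid n δ)
    (hdist : ∀ i : ZMod p, i ≠ 0 → ∀ x ∈ Φ, n * δ < dist (U i x) x) :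
    ∃ W : ZMod p → Set (E n), (∀ i, IsCompact (W i)) ∧ (∀ i j, i ≠ j → Disjoint (W i) (W j)) ∧
      (⋃ i, W i) = Φ ∧ ∀ i, ∀ x ∈ W i, U 1 x ∈ W (i + 1) := by
  classical
  obtain ⟨e, he1, he2⟩ := exists_cell n δ hδ
  have hΦB : Φ ⊆ BB n := hΦ3.trans (closedBall_subset_closedBall (by norm_num))
  -- the cells along an orbit are distinct
  have hdst : ∀ x ∈ Φ, ∀ i j : ZMod p, e (U i x) = e (U j x) → i = j := by
    intro x hx i j h
    by_contra hij
    have h1 := he2 _ _ h
    have h2 := hdist (i - j) (sub_ne_zero.2 hij) (U j x) (hinv j x hx)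
    rw [← hU.add (i - j) j x (hΦ3 hx), sub_add_cancel] at h2
    linarith
  have hec : ∀ j : ZMod p, ContinuousOn (fun x => e (U j x)) Φ := by
    intro j x hx
    have h1 : Tendsto (U j) (𝓝[Φ] x) (𝓝 (U j x)) := ((hU.cont j).mono hΦB) x hx
    have h2 := h1.eventually (he1 _ (hgrid _ (hinv j x hx)))
    exact (continuousWithinAt_const (b := e (U j x))).congr_of_eventuallyEq h2 rfl
  refine ⟨fun i => {x | x ∈ Φ ∧ ∀ j : ZMod p, e (U (-i) x) ≤ e (U j x)}, ?_, ?_, ?_, ?_⟩
  · intro i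
    have h1 : {x | x ∈ Φ ∧ ∀ j : ZMod p, e (U (-i) x) ≤ e (U j x)} =
        ⋂ j : ZMod p, Φ ∩ (fun x => (e (U (-i) x), e (U j x))) ⁻¹' {q : ℕ × ℕ | q.1 ≤ q.2} := by
      ext x
      simp only [mem_iInter, mem_inter_iff, mem_preimage, mem_ofPred_eq]
      exact ⟨fun h j => ⟨h.1, h.2 j⟩, fun h => ⟨(h 0).1, fun j => (h j).2⟩⟩
    show IsCompact {x | x ∈ Φ ∧ ∀ j : ZMod p, e (U (-i) x) ≤ e (U j x)}
    rw [h1]
    refine hΦ.of_isClosed_subset (isClosed_iInter fun j => ?_) ?_
    · exact ((hec (-i)).prodMk (hec j)).preimage_isClosed_of_isClosed hΦ.isClosed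
        (isClosed_discrete _)
    · exact (iInter_subset _ 0).trans inter_subset_left
  · intro i j hij
    rw [disjoint_left]
    rintro x ⟨hx, h1⟩ ⟨-, h2⟩
    have h3 := hdst x hx (-i) (-j) (le_antisymm (h1 _) (h2 _))
    exact hij (neg_injective h3)
  · ext x
    simp only [mem_iUnion, mem_ofPred_eq]
    constructor
    · rintro ⟨i, hx, -⟩
      exact hx
    · intro hx
      obtain ⟨j0, hj0⟩ := Finite.exists_min (fun j : ZMod p => e (U j x))
      exact ⟨-j0, hx, fun j => by rw [neg_neg]; exact hj0 j⟩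
  · rintro i x ⟨hx, h1⟩
    refine ⟨hinv 1 x hx, fun j => ?_⟩
    rw [← hU.add _ _ x (hΦ3 hx), ← hU.add _ _ x (hΦ3 hx)]
    have h2 : -(i + 1) + 1 = -i := by ring
    rw [h2]
    exact h1 _

/-- **The centre is fixed.** -/
theorem centre {p n : ℕ} [Fact p.Prime] (hn : 1 ≤ n) {U : ZMod p → E n → E n}
    (hU : CAct p n U) : U 1 0 = 0 := by
  classical
  by_contra h0
  have hp : p.Prime := Fact.out
  have hpR : (0 : ℝ) < p := by exact_mod_cast hp.pos
  have h0B : (0 : E n) ∈ BB n := mem_closedBall_self (by norm_num)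
  have h3B : closedBall (0 : E n) 3 ⊆ BB n := closedBall_subset_closedBall (by norm_num)
  -- the average
  set F : E n → E n := fun x => (p : ℝ)⁻¹ • ∑ i : ZMod p, U i x with hF
  have hFc : ContinuousOn F (BB n) := by
    have h1 : ContinuousOn (fun x => ∑ i : ZMod p, U i x) (BB n) :=
      continuousOn_finsetSum _ fun i _ => hU.cont i
    exact h1.const_smul ((p : ℝ)⁻¹)
  have hFI : Inv U F := by
    intro j x hx
    simp only [hF]
    congr 1
    have h1 : ∀ i : ZMod p, U i (U j x) = U (i + j) x := fun i => by rw [hU.add i j x hx]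
    simp only [h1]
    exact Fintype.sum_equiv (Equiv.addRight j) _ _ fun i => rfl
  have hFd : ∀ x ∈ BB n, dist (F x) x + 1 / (4 * p) ≤ 1 / 4 := by
    intro x hx
    have e1 : F x - x = (p : ℝ)⁻¹ • ∑ i : ZMod p, (U i x - x) := by
      simp only [hF]
      rw [Finset.sum_sub_distrib, smul_sub, Finset.sum_const, Finset.card_univ, ZMod.card,
        ← Nat.cast_smul_eq_nsmul ℝ, smul_smul, inv_mul_cancel₀ hpR.ne', one_smul]
    have e2 : ‖∑ i : ZMod p, (U i x - x)‖ ≤ (p - 1) * (1 / 4) := by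
      rw [← Finset.add_sum_erase _ _ (Finset.mem_univ (0 : ZMod p)), hU.zero x hx, sub_self,
        zero_add]
      refine (norm_sum_le _ _).trans ?_
      calc ∑ i ∈ Finset.univ.erase (0 : ZMod p), ‖U i x - x‖
          ≤ ∑ i ∈ Finset.univ.erase (0 : ZMod p), (1 / 4 : ℝ) :=
            Finset.sum_le_sum fun i _ => by rw [← dist_eq_norm]; exact hU.disp i x hx
        _ = (p - 1) * (1 / 4) := by
            rw [Finset.sum_const, Finset.card_erase_of_mem (Finset.mem_univ _), Finset.card_univ,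
              ZMod.card, nsmul_eq_mul, Nat.cast_sub hp.one_le, Nat.cast_one]
    rw [dist_eq_norm, e1, norm_smul, norm_inv, Real.norm_of_nonneg hpR.le]
    have e3 : (p : ℝ)⁻¹ * ‖∑ i : ZMod p, (U i x - x)‖ ≤ (p : ℝ)⁻¹ * ((p - 1) * (1 / 4)) :=
      mul_le_mul_of_nonneg_left e2 (by positivity)
    have e4 : (p : ℝ)⁻¹ * ((p - 1) * (1 / 4)) + 1 / (4 * p) = 1 / 4 := by
      field_simp
      ring
    linarith
  -- a radius without fixed points
  obtain ⟨r1, hr1, hr1f⟩ : ∃ r1 : ℝ, 0 < r1 ∧ ∀ x ∈ closedBall (0 : E n) r1, U 1 x ≠ x := by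
    have h1 : ContinuousAt (U 1) 0 := (hU.cont 1).continuousAt
      (closedBall_mem_nhds _ (by norm_num))
    have h2 : ∀ᶠ x in 𝓝 (0 : E n), U 1 x ≠ x := by
      have h3 : ContinuousAt (fun x => U 1 x - x) 0 := h1.sub continuousAt_id
      filter_upwards [h3.eventually_ne (sub_ne_zero.2 h0)] with x hx
      exact sub_ne_zero.1 hx
    exact Metric.nhds_basis_closedBall.eventually_iff.1 h2
  -- a fixed point of one is a fixed point of all
  have hfixall : ∀ x ∈ closedBall (0 : E n) 3, ∀ i : ZMod p, i ≠ 0 → U i x = x →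
      ∀ j : ZMod p, U j x = x := by
    intro x hx i hi hix
    have h1 : ∀ m : ℕ, U ((m : ZMod p) * i) x = x := by
      intro m
      induction m with
      | zero => rw [Nat.cast_zero, zero_mul, hU.zero x (h3B hx)]
      | succ m ih =>
        rw [Nat.cast_succ, add_mul, one_mul, hU.add _ _ x hx, hix, ih]
    intro j
    have h2 := h1 (j * i⁻¹).val
    rwa [ZMod.natCast_zmod_val, mul_assoc, inv_mul_cancel₀ hi, mul_one] at h2
  have hFfix : ∀ x ∈ closedBall (0 : E n) 3, (∀ j : ZMod p, U j x = x) → F x = x := by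
    intro x _ hj
    simp only [hF, hj]
    rw [Finset.sum_const, Finset.card_univ, ZMod.card, ← Nat.cast_smul_eq_nsmul ℝ, smul_smul,
      inv_mul_cancel₀ hpR.ne', one_smul]
  -- the compact set
  set r2 : ℝ := min r1 (1 / 4) with hr2
  have hr20 : 0 < r2 := by positivity
  have hr21 : r2 ≤ r1 := min_le_left _ _
  have hr24 : r2 ≤ 1 / 4 := min_le_right _ _
  set N : Set (E n) := {x | x ∈ closedBall (0 : E n) 3 ∧ ‖F x‖ ≤ r2} with hN
  have hNc : IsCompact N := by
    have h1 : N = closedBall (0 : E n) 3 ∩ (fun x => ‖F x‖) ⁻¹' (Iic r2) := rfl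
    rw [h1]
    exact (isCompact_closedBall _ _).of_isClosed_subset
      ((hFc.mono h3B).norm.preimage_isClosed_of_isClosed isClosed_closedBall isClosed_Iic)
      inter_subset_left
  have hNsmall : ∀ x ∈ N, ‖x‖ ≤ 1 / 2 := by
    rintro x ⟨hx, hx2⟩
    have h1 := hFd x (h3B hx)
    have h2 : 0 < 1 / (4 * (p : ℝ)) := by positivity
    rw [dist_eq_norm] at h1
    have h3 := norm_sub_norm_le x (F x)
    rw [norm_sub_rev] at h3
    linarith
  have hNfree : ∀ x ∈ N, ∀ i : ZMod p, i ≠ 0 → U i x ≠ x := by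
    rintro x ⟨hx, hx2⟩ i hi hix
    have h1 := hfixall x hx i hi hix
    have h2 := hFfix x hx h1
    rw [h2] at hx2
    exact hr1f x (mem_closedBall_zero_iff.2 (hx2.trans hr21)) (h1 1)
  have hNinv : ∀ i, ∀ x ∈ N, U i x ∈ N := by
    rintro i x ⟨hx, hx2⟩
    have h1 := hU.disp i x (h3B hx)
    have h2 := hNsmall x ⟨hx, hx2⟩
    refine ⟨?_, ?_⟩
    · rw [mem_closedBall_zero_iff]
      rw [dist_eq_norm] at h1
      have h3 := norm_sub_norm_le (U i x) x
      linarith
    · rw [hFI i x hx]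
      exact hx2
  -- the least displacement
  obtain ⟨δ0, hδ0, hδ0N⟩ : ∃ δ0 : ℝ, 0 < δ0 ∧ ∀ i : ZMod p, i ≠ 0 → ∀ x ∈ N,
      δ0 ≤ dist (U i x) x := by
    have h1 : ∀ i : ZMod p, ∃ δ : ℝ, 0 < δ ∧ (i ≠ 0 → ∀ x ∈ N, δ ≤ dist (U i x) x) := by
      intro i
      by_cases hi : i = 0
      · exact ⟨1, one_pos, fun h => absurd hi h⟩
      · have hNB : N ⊆ BB n := fun x hx => h3B hx.1
        have hc : ContinuousOn (fun x => dist (U i x) x) N :=
          continuous_dist.comp_continuousOn (((hU.cont i).mono hNB).prodMk continuousOn_id)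
        obtain ⟨δ, hδ, hδN⟩ := hNc.exists_forall_le' hc (a := 0)
          fun x hx => dist_pos.2 (hNfree x hx i hi)
        exact ⟨δ, hδ, fun _ => hδN⟩
    choose δ hδ hδN using h1
    obtain ⟨i0, hi0⟩ := Finite.exists_min δ
    exact ⟨δ i0, hδ i0, fun i hi x hx => (hi0 i).trans (hδN i hi x hx)⟩
  -- the patches
  have hpatch : ∀ x ∈ N, ∃ r : ℝ, 0 < r ∧ closedBall x (2 * r) ⊆ closedBall 0 3 ∧
      ∀ i : ZMod p, i ≠ 0 → ∀ w ∈ closedBall x (2 * r), U i w ∉ closedBall x (2 * r) := by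
    intro x hx
    have h1 : ∀ i : ZMod p, ∀ᶠ w in 𝓝 x, dist (U i w) (U i x) < δ0 / 2 := by
      intro i
      have h2 : ContinuousAt (U i) x := (hU.cont i).continuousAt
        (mem_of_superset (isOpen_ball.mem_nhds (by
          rw [mem_ball_zero_iff]
          have := hNsmall x hx
          linarith : x ∈ ball (0 : E n) 4)) ball_subset_closedBall)
      exact h2.eventually (ball_mem_nhds _ (by positivity))
    obtain ⟨s, hs, hsx⟩ := Metric.nhds_basis_closedBall.eventually_iff.1 (eventually_all.2 h1)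
    refine ⟨min (s / 2) (min (1 / 4) (δ0 / 5)), by positivity, ?_, ?_⟩
    · intro w hw
      rw [mem_closedBall] at hw
      rw [mem_closedBall_zero_iff]
      have e1 : min (s / 2) (min (1 / 4) (δ0 / 5)) ≤ 1 / 4 :=
        (min_le_right _ _).trans (min_le_left _ _)
      have e2 := hNsmall x hx
      rw [dist_eq_norm] at hw
      have e3 := norm_sub_norm_le w x
      linarith
    · intro i hi w hw hcon
      have e0 : min (s / 2) (min (1 / 4) (δ0 / 5)) ≤ s / 2 := min_le_left _ _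
      have e1 : min (s / 2) (min (1 / 4) (δ0 / 5)) ≤ δ0 / 5 :=
        (min_le_right _ _).trans (min_le_right _ _)
      have e2 := hsx (closedBall_subset_closedBall (by linarith) hw) i
      have e3 := hδ0N i hi x hx
      rw [mem_closedBall] at hcon
      have e4 := dist_triangle_left (U i x) x (U i w)
      linarith
  choose! r hr hrsub hrdis using hpatch
  obtain ⟨t, htN, htc⟩ := hNc.elim_nhds_subcover (fun x => ball x (r x))
    fun x hx => ball_mem_nhds x (hr x hx)
  set δ : ℝ := δ0 / (n + 1) with hδ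
  have hδpos : 0 < δ := by positivity
  have hnδ : n * δ < δ0 := by
    rw [hδ, mul_div_assoc', div_lt_iff₀ (by positivity)]
    nlinarith
  set ε : ℝ := min (1 / (4 * p)) (r2 / 2) with hε
  have hε0 : 0 < ε := by positivity
  obtain ⟨F', hF'c, hF'I, hF'd, hF'Q⟩ := patches hU F hFc hFI (Grid n δ) (grid_null n δ)
    (grid_closed n δ hδpos) (t.image fun x => (x, r x)) (by
      intro q hq
      obtain ⟨x, hx, rfl⟩ := Finset.mem_image.1 hq
      exact ⟨hr x (htN x hx), hrsub x (htN x hx), hrdis x (htN x hx)⟩) ε hε0 (by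
      intro x hx
      have h1 := hFd x hx
      have h2 : ε ≤ 1 / (4 * p) := min_le_left _ _
      linarith)
  -- the fibre
  set Φ : Set (E n) := {x | x ∈ closedBall (0 : E n) 3 ∧ F' x = 0} with hΦ
  have hΦc : IsCompact Φ := by
    have h1 : Φ = closedBall (0 : E n) 3 ∩ F' ⁻¹' {0} := rfl
    rw [h1]
    exact (isCompact_closedBall _ _).of_isClosed_subset
      ((hF'c.mono h3B).preimage_isClosed_of_isClosed isClosed_closedBall isClosed_singleton)
      inter_subset_left
  have hΦN : Φ ⊆ N := by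
    rintro x ⟨hx, hx2⟩
    refine ⟨hx, ?_⟩
    have h1 := hF'd x (h3B hx)
    rw [hx2, dist_eq_norm, zero_sub, norm_neg] at h1
    have h2 : ε ≤ r2 / 2 := min_le_right _ _
    linarith
  have hΦinv : ∀ i, ∀ x ∈ Φ, U i x ∈ Φ := by
    intro i x hx
    refine ⟨(hNinv i x (hΦN hx)).1, ?_⟩
    rw [hF'I i x hx.1]
    exact hx.2
  have hΦg : ∀ x ∈ Φ, x ∉ Grid n δ := by
    intro x hx hxg
    obtain ⟨y, hy, hxy⟩ := mem_iUnion₂.1 (htc (hΦN hx))
    exact hF'Q (y, r y) (Finset.mem_image.2 ⟨y, hy, rfl⟩) x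
      ⟨ball_subset_closedBall hxy, hxg⟩ hx.2
  obtain ⟨W, hW1, hW2, hW3, hW4⟩ := cyc hU Φ hΦc (fun x hx => hx.1) hΦinv δ hδpos hΦg
    (fun i hi x hx => hnδ.trans_le (hδ0N i hi x (hΦN hx)))
  refine degp n hn p hp.two_le F' (U 1) hF'c (hU.cont 1) ?_ (hU.disp 1) (hF'I 1) 0
    (mem_ball_self one_pos) W hW1 hW2 hW3 hW4
  intro x hx
  have h1 := hFd x hx
  have h2 := hF'd x hx
  have h3 : ε ≤ 1 / (4 * p) := min_le_left _ _
  have h4 := dist_triangle (F' x) (F x) x
  linarith

end Pool.Agent.X169.HT
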