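import Pool.Agent.X169.HT.Cyc
import Pool.Agent.Y665.HS.Coord

/-! Newman's theorem. -/

set_option autoImplicit false

open Set Filter Topology Metric Function MeasureTheory

noncomputable section

namespace Pool.Agent.X169.HT

open Pool.Agent.Y485.HS Pool.Agent.Y489.SP

theorem pow_mod_smul {K X : Type} [Group K] [MulAction K X] (k : K) (u : X) (p : ℕ)
    (h : k ^ p • u = u) (a : ℕ) : k ^ a • u = k ^ (a % p) • u := by
  have h1 : ∀ m : ℕ, (k ^ p) ^ m • u = u := by
    intro m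
    induction m with
    | zero => simp
    | succ m ih => rw [pow_succ, mul_smul, h, ih]
  conv_lhs => rw [← Nat.mod_add_div a p, pow_add, mul_smul, pow_mul, h1]

theorem prime_step {p n : ℕ} [Fact p.Prime] (hn : 1 ≤ n) {X : Type} [TopologicalSpace X]
    (φ : OpenPartialHomeomorph X (E n)) {K : Type} [Group K] [MulAction K X]
    [ContinuousConstSMul K X] (x0 : X) (hx0 : x0 ∈ φ.source) (k : K) (hfix : k • x0 = x0)
    (hkp : ∀ᶠ x in 𝓝 x0, k ^ p • x = x)
    (hcl : ∀ V ∈ 𝓝 x0, ∃ a ∈ V, ∀ᶠ x in 𝓝 a, k • x = x) : ∀ᶠ x in 𝓝 x0, k • x = x := by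
  classical
  by_contra hcon
  have hp : p.Prime := Fact.out
  have hz : φ x0 ∈ φ.target := φ.map_source hx0
  have hfixp : ∀ m : ℕ, k ^ m • x0 = x0 := by
    intro m
    induction m with
    | zero => simp
    | succ m ih => rw [pow_succ, mul_smul, hfix, ih]
  have hsymm : Tendsto φ.symm (𝓝 (φ x0)) (𝓝 x0) := by
    have := φ.continuousAt_symm hz
    rwa [ContinuousAt, φ.left_inv hx0] at this
  have e1 : ∀ᶠ y in 𝓝 (φ x0), y ∈ φ.target := φ.open_target.mem_nhds hz
  have e2 : ∀ᶠ y in 𝓝 (φ x0), k ^ p • φ.symm y = φ.symm y := hsymm.eventually hkp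
  have e3 : ∀ᶠ y in 𝓝 (φ x0), ∀ i : ZMod p, k ^ i.val • φ.symm y ∈ φ.source := by
    rw [eventually_all]
    intro i
    have h1 : Tendsto (fun x : X => k ^ i.val • x) (𝓝 x0) (𝓝 x0) := by
      have h2 := (continuous_const_smul (k ^ i.val) : Continuous fun x : X => k ^ i.val • x)
      have h3 := h2.tendsto x0
      rwa [hfixp] at h3
    exact (h1.comp hsymm).eventually (φ.open_source.mem_nhds hx0)
  obtain ⟨ρ, hρ, hρG⟩ := Metric.nhds_basis_closedBall.eventually_iff.1 (e1.and (e2.and e3))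
  letI : TopologicalSpace (Multiplicative (ZMod p)) := ⊥
  haveI : DiscreteTopology (Multiplicative (ZMod p)) := ⟨rfl⟩
  haveI : IsTopologicalGroup (Multiplicative (ZMod p)) :=
    { continuous_mul := continuous_of_discreteTopology
      continuous_inv := continuous_of_discreteTopology }
  haveI : Finite (Multiplicative (ZMod p)) := inferInstanceAs (Finite (ZMod p))
  haveI : CompactSpace (Multiplicative (ZMod p)) := Finite.compactSpace
  let T : Multiplicative (ZMod p) → E n → E n := fun i y => φ (k ^ (ZMod.val i.toAdd) • φ.symm y)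
  have hTi : ∀ i, ContinuousOn (T i) (closedBall (φ x0) ρ) := by
    intro i
    have h1 : ContinuousOn (fun y => k ^ (ZMod.val i.toAdd) • φ.symm y) (closedBall (φ x0) ρ) :=
      (φ.continuousOn_symm.mono fun y hy => (hρG hy).1).const_smul _
    exact φ.continuousOn.comp h1 fun y hy => (hρG hy).2.2 _
  have hTc : ContinuousOn (fun q : Multiplicative (ZMod p) × E n => T q.1 q.2)
      (univ ×ˢ closedBall (φ x0) ρ) := by
    rw [continuousOn_prod_of_discrete_left]
    intro i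
    refine (hTi i).mono ?_
    rintro y hy
    exact hy.2
  have hT1 : ∀ x ∈ closedBall (φ x0) ρ, T 1 x = x := by
    intro y hy
    show φ (k ^ (ZMod.val (0 : ZMod p)) • φ.symm y) = y
    rw [ZMod.val_zero, pow_zero, one_smul, φ.right_inv (hρG hy).1]
  have hTm : ∀ h h', ∀ x ∈ closedBall (φ x0) ρ, T h' x ∈ closedBall (φ x0) ρ →
      T (h * h') x = T h (T h' x) := by
    intro h h' y hy _
    show φ (k ^ (ZMod.val (h.toAdd + h'.toAdd)) • φ.symm y) =
      φ (k ^ (ZMod.val h.toAdd) • φ.symm (φ (k ^ (ZMod.val h'.toAdd) • φ.symm y)))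
    rw [φ.left_inv ((hρG hy).2.2 _), ← mul_smul, ← pow_add, ZMod.val_add,
      ← pow_mod_smul k _ p (hρG hy).2.1]
  -- the two points
  have hV : φ.source ∩ φ ⁻¹' ball (φ x0) ρ ∈ 𝓝 x0 :=
    inter_mem (φ.open_source.mem_nhds hx0)
      ((φ.continuousAt hx0).preimage_mem_nhds (ball_mem_nhds _ hρ))
  obtain ⟨a, ⟨haS, haB⟩, ha⟩ := hcl _ hV
  obtain ⟨x1, ⟨hx1S, hx1B⟩, hx1⟩ : ∃ x1 ∈ φ.source ∩ φ ⁻¹' ball (φ x0) ρ, k • x1 ≠ x1 := by
    by_contra h
    push Not at h
    exact hcon (mem_of_superset hV fun x hx => h x hx)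
  have ha' : ∀ᶠ y in 𝓝 (φ a), ∀ i, T i y = y := by
    have h1 : Tendsto φ.symm (𝓝 (φ a)) (𝓝 a) := by
      have := φ.continuousAt_symm (φ.map_source haS)
      rwa [ContinuousAt, φ.left_inv haS] at this
    filter_upwards [h1.eventually ha, φ.open_target.mem_nhds (φ.map_source haS)] with y hy hyt i
    have h2 : ∀ m : ℕ, k ^ m • φ.symm y = φ.symm y := by
      intro m
      induction m with
      | zero => simp
      | succ m ih => rw [pow_succ, mul_smul, hy, ih]
    show φ (k ^ (ZMod.val i.toAdd) • φ.symm y) = y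
    rw [h2, φ.right_inv hyt]
  have hx1' : ∃ i, T i (φ x1) ≠ φ x1 := by
    refine ⟨Multiplicative.ofAdd 1, ?_⟩
    show φ (k ^ (ZMod.val (1 : ZMod p)) • φ.symm (φ x1)) ≠ φ x1
    rw [ZMod.val_one'' hp.one_lt.ne', pow_one, φ.left_inv hx1S]
    intro h
    have h2 := (hρG (ball_subset_closedBall hx1B)).2.2 1
    rw [ZMod.val_one'' hp.one_lt.ne', pow_one, φ.left_inv hx1S] at h2
    exact hx1 (φ.injOn h2 hx1S h)
  obtain ⟨w, O, Φ, L, ⟨kw, hkw⟩, hwO, hOρ, hOo, hΦO, hΦL, hΦw, hΦB, hΦs⟩ :=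
    Pool.Agent.Y665.HS.coord n hn (Multiplicative (ZMod p)) T (φ x0) ρ hρ hTc hT1 hTm (φ a) haB
      (φ x1) hx1B ha' hx1'
  have hOρ' : ∀ x ∈ O, x ∈ closedBall (φ x0) ρ := fun x hx => ball_subset_closedBall (hOρ hx)
  have hΦinj : InjOn Φ O := by
    intro x hx y hy h
    have h1 := (hΦL x hx y hy).2
    rw [h, dist_self, mul_zero] at h1
    exact dist_le_zero.1 h1
  have hΦc : ContinuousOn Φ O := by
    have : LipschitzOnWith (Real.toNNReal L) Φ O :=
      LipschitzOnWith.of_dist_le_mul fun x hx y hy =>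
        ((hΦL x hx y hy).1).trans (mul_le_mul_of_nonneg_right (Real.le_coe_toNNReal L) dist_nonneg)
    exact this.continuousOn
  let Ψ : E n → E n := invFunOn Φ O
  have hΨO : ∀ y ∈ Φ '' O, Ψ y ∈ O := fun y hy => invFunOn_mem hy
  have hΨ : ∀ y ∈ Φ '' O, Φ (Ψ y) = y := fun y hy => invFunOn_eq hy
  have hΨ' : ∀ x ∈ O, Ψ (Φ x) = x := fun x hx =>
    hΦinj (hΨO _ (mem_image_of_mem _ hx)) hx (hΨ _ (mem_image_of_mem _ hx))
  have hΨc : ContinuousOn Ψ (Φ '' O) := by
    have : LipschitzOnWith (Real.toNNReal L) Ψ (Φ '' O) := by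
      refine LipschitzOnWith.of_dist_le_mul fun x hx y hy => ?_
      have h1 := (hΦL _ (hΨO x hx) _ (hΨO y hy)).2
      rw [hΨ x hx, hΨ y hy] at h1
      exact h1.trans (mul_le_mul_of_nonneg_right (Real.le_coe_toNNReal L) dist_nonneg)
    exact this.continuousOn
  have hBO : ∀ y ∈ BB n, Ψ y ∈ O ∧ Φ (Ψ y) ∈ closedBall 0 4 := fun y hy => by
    have h1 := hΦB hy
    refine ⟨hΨO y h1, ?_⟩
    rw [hΨ y h1]
    exact hy
  have hstay : ∀ i, ∀ y ∈ BB n, T i (Ψ y) ∈ O ∧ dist (Φ (T i (Ψ y))) y ≤ 1 / 4 := by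
    intro i y hy
    have h1 := hΦs (Ψ y) (hBO y hy).1 (hBO y hy).2 i
    rwa [hΨ y (hΦB hy)] at h1
  let U : ZMod p → E n → E n := fun i y => Φ (T (Multiplicative.ofAdd i) (Ψ y))
  have hU : CAct p n U := by
    refine ⟨fun i => ?_, fun y hy => ?_, fun i j y hy => ?_, fun i y hy => (hstay _ y hy).2⟩
    · have h1 : ContinuousOn (fun y => T (Multiplicative.ofAdd i) (Ψ y)) (BB n) :=
        (hTi _).comp (hΨc.mono hΦB) fun y hy => hOρ' _ (hBO y hy).1
      exact hΦc.comp h1 fun y hy => (hstay _ y hy).1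
    · show Φ (T 1 (Ψ y)) = y
      rw [hT1 _ (hOρ' _ (hBO y hy).1), hΨ y (hΦB hy)]
    · have hyB : y ∈ BB n := closedBall_subset_closedBall (by norm_num) hy
      have h1 := hstay (Multiplicative.ofAdd j) y hyB
      show Φ (T (Multiplicative.ofAdd i * Multiplicative.ofAdd j) (Ψ y)) =
        Φ (T (Multiplicative.ofAdd i) (Ψ (Φ (T (Multiplicative.ofAdd j) (Ψ y)))))
      rw [hΨ' _ h1.1, hTm _ _ _ (hOρ' _ (hBO y hyB).1) (hOρ' _ h1.1)]
  have h0 := centre hn hU
  have h03 : (0 : E n) ∈ closedBall (0 : E n) 3 := mem_closedBall_self (by norm_num)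
  have h04 : (0 : E n) ∈ BB n := mem_closedBall_self (by norm_num)
  have hall : ∀ m : ℕ, U (m : ZMod p) 0 = 0 := by
    intro m
    induction m with
    | zero => rw [Nat.cast_zero, hU.zero 0 h04]
    | succ m ih => rw [Nat.cast_succ, hU.add _ _ 0 h03, h0, ih]
  have h1 := hall (ZMod.val kw.toAdd)
  rw [ZMod.natCast_zmod_val] at h1
  have hΨ0 : Ψ 0 = w := by
    rw [← hΦw]
    exact hΨ' w hwO
  have h2 : Φ (T kw w) = 0 := by
    rw [← hΨ0]
    exact h1
  have h3 := (hstay kw 0 h04).1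
  rw [hΨ0] at h3
  exact hkw (hΦinj h3 hwO (by rw [h2, hΦw]))

/-- elements of finite order -/
theorem newman_pow {n : ℕ} (hn : 1 ≤ n) {X : Type} [TopologicalSpace X]
    (φ : OpenPartialHomeomorph X (E n)) {K : Type} [Group K] [MulAction K X]
    [ContinuousConstSMul K X] (x0 : X) (hx0 : x0 ∈ φ.source) (N : ℕ) : ∀ (k : K), 0 < N →
    k • x0 = x0 → (∀ᶠ x in 𝓝 x0, k ^ N • x = x) →
    (∀ V ∈ 𝓝 x0, ∃ a ∈ V, ∀ᶠ x in 𝓝 a, k • x = x) → ∀ᶠ x in 𝓝 x0, k • x = x := by
  induction N using Nat.strong_induction_on with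
  | _ N ih =>
    intro k hN hfix hkN hcl
    rcases Nat.lt_or_ge 1 N with h1 | h1
    · have hp : N.minFac.Prime := Nat.minFac_prime h1.ne'
      haveI : Fact N.minFac.Prime := ⟨hp⟩
      obtain ⟨M, hM⟩ := Nat.minFac_dvd N
      have hM0 : 0 < M := Nat.pos_of_ne_zero fun h => by rw [h, mul_zero] at hM; omega
      have hMN : M < N := by
        have h2 := hp.two_le
        calc M < N.minFac * M := by nlinarith
          _ = N := hM.symm
      have hfixM : ∀ x : X, k • x = x → ∀ m : ℕ, k ^ m • x = x := by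
        intro x hx m
        induction m with
        | zero => simp
        | succ m ih => rw [pow_succ, mul_smul, hx, ih]
      refine ih M hMN k hM0 hfix ?_ hcl
      refine prime_step (p := N.minFac) hn φ x0 hx0 (k ^ M) (hfixM x0 hfix M) ?_ ?_
      · filter_upwards [hkN] with x hx
        rw [← pow_mul, mul_comm, ← hM]
        exact hx
      · intro V hV
        obtain ⟨a, ha, hax⟩ := hcl V hV
        exact ⟨a, ha, hax.mono fun x hx => hfixM x hx M⟩
    · have h2 : N = 1 := le_antisymm h1 hN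
      rw [h2, pow_one] at hkN
      exact hkN

/-- **Newman's theorem** for compact groups which act locally through finite groups -/
theorem newman {n : ℕ} {X : Type} [TopologicalSpace X] [T2Space X]
    (φ : OpenPartialHomeomorph X (E n)) {K : Type} [Group K]
    [TopologicalSpace K] [IsTopologicalGroup K] [CompactSpace K]
    [MulAction K X] [ContinuousSMul K X] (x0 : X) (hx0 : x0 ∈ φ.source) (K1 : Subgroup K)
    (hK1 : IsOpen (K1 : Set K)) (hK1t : ∀ᶠ x in 𝓝 x0, ∀ k ∈ K1, k • x = x)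
    (hcl : ∀ V ∈ 𝓝 x0, ∃ a ∈ V, ∀ᶠ x in 𝓝 a, ∀ k : K, k • x = x) :
    ∀ᶠ x in 𝓝 x0, ∀ k : K, k • x = x := by
  -- `x0` is fixed
  have hfix0 : ∀ k : K, k • x0 = x0 := by
    have h1 : IsClosed {x : X | ∀ k : K, k • x = x} := by
      have : {x : X | ∀ k : K, k • x = x} = ⋂ k : K, {x | k • x = x} := by ext; simp
      rw [this]
      exact isClosed_iInter fun k => isClosed_eq (continuous_const_smul k) continuous_id
    have h2 : x0 ∈ closure {x : X | ∀ k : K, k • x = x} := by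
      rw [mem_closure_iff_nhds]
      intro V hV
      obtain ⟨a, haV, ha⟩ := hcl V hV
      exact ⟨a, haV, ha.self_of_nhds⟩
    rw [h1.closure_eq] at h2
    exact h2
  rcases Nat.eq_zero_or_pos n with h0 | hn
  · subst h0
    filter_upwards [φ.open_source.mem_nhds hx0] with x hx k
    have : x = x0 := φ.injOn hx hx0 (Subsingleton.elim _ _)
    rw [this, hfix0]
  have hfin : Finite (K ⧸ K1) := Subgroup.quotient_finite_of_isOpen K1 hK1
  have hidx : K1.index ≠ 0 := Subgroup.index_ne_zero_of_finite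
  have hall : ∀ k : K, ∀ᶠ x in 𝓝 x0, k • x = x := by
    intro k
    obtain ⟨N, hN0, -, hN⟩ := Subgroup.exists_pow_mem_of_index_ne_zero hidx k
    refine newman_pow hn φ x0 hx0 N k hN0 (hfix0 k) ?_ ?_
    · filter_upwards [hK1t] with x hx
      exact hx _ hN
    · intro V hV
      obtain ⟨a, ha, hax⟩ := hcl V hV
      exact ⟨a, ha, hax.mono fun x hx => hx k⟩
  have h1 : ∀ᶠ x in 𝓝 x0, ∀ q : K ⧸ K1, Quotient.out q • x = x :=
    eventually_all.2 fun q => hall _
  filter_upwards [h1, hK1t] with x hx hx1 k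
  obtain ⟨h, hh⟩ := QuotientGroup.mk_out_eq_mul K1 k
  have h2 := hx (k : K ⧸ K1)
  rw [hh, mul_smul, hx1 h h.2] at h2
  exact h2

end Pool.Agent.X169.HT
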