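import Pool.Agent.X169.HT.Mono
import Pool.Agent.X169.HT.Newman
import Pool.Agent.Y485.HS.Lie
import Pool.Agent.Y286.HS.LGB
import Pool.Agent.Y328.HS.Lga

/-! From the local theorems to Lie groups. -/

set_option autoImplicit false

open Set Filter Topology Metric Function MeasureTheory

noncomputable section

namespace Pool.Agent.X169.HT

open Pool.Agent.Y485.HS (E)

/-- A profinite group which acts locally through finite groups has an open subgroup which acts
trivially. -/
theorem globalize {X : Type} [TopologicalSpace X] [T2Space X] {H : Type} [Group H]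
    [TopologicalSpace H] [IsTopologicalGroup H] [CompactSpace H] [MulAction H X]
    [ContinuousSMul H X] (R : Set X) (hdense : Dense R) (hconn : IsPreconnected R)
    (hR : ∀ x ∈ R, ∃ (n : ℕ) (φ : OpenPartialHomeomorph X (E n)), x ∈ φ.source)
    (hloc : ∀ x ∈ R, ∃ K : Subgroup H, IsOpen (K : Set H) ∧ ∀ᶠ y in 𝓝 x, ∀ k ∈ K, k • y = y) :
    ∃ K : Subgroup H, IsOpen (K : Set H) ∧ ∀ k ∈ K, ∀ x : X, k • x = x := by
  rcases isEmpty_or_nonempty X with hX | hX
  · exact ⟨⊤, isOpen_univ, fun k _ x => (hX.false x).elim⟩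
  obtain ⟨x0, hx0⟩ := hdense.nonempty
  obtain ⟨K, hKo, hKt⟩ := hloc x0 hx0
  refine ⟨K, hKo, ?_⟩
  have hKc : IsClosed (K : Set H) := Subgroup.isClosed_of_isOpen K hKo
  have : CompactSpace K := isCompact_iff_compactSpace.1 hKc.isCompact
  let Z : Set X := {x | ∀ᶠ y in 𝓝 x, ∀ q : K, q • y = y}
  have hZo : IsOpen Z := by
    rw [isOpen_iff_mem_nhds]
    intro x hx
    exact eventually_eventually_nhds.2 hx
  have hZx : x0 ∈ Z := by
    filter_upwards [hKt] with y hy q
    exact hy (q : H) q.2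
  have hsub : R ⊆ Z := by
    refine hconn.subset_of_closure_inter_subset hZo ⟨x0, hx0, hZx⟩ ?_
    rintro x ⟨hxZ, hxR⟩
    obtain ⟨n, φ, hφ⟩ := hR x hxR
    obtain ⟨K', hK'o, hK't⟩ := hloc x hxR
    let K'' : Subgroup K := K'.comap K.subtype
    have hK''o : IsOpen (K'' : Set K) := hK'o.preimage continuous_subtype_val
    refine newman φ (K := K) x hφ K'' hK''o ?_ ?_
    · filter_upwards [hK't] with y hy q hq
      exact hy _ hq
    · intro V hV
      obtain ⟨a, haV, haZ⟩ := mem_closure_iff_nhds.1 hxZ V hV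
      exact ⟨a, haV, haZ⟩
  intro k hk x
  have hcl : IsClosed {x : X | (k : H) • x = x} :=
    isClosed_eq (continuous_const_smul (k : H)) continuous_id
  have h2 : R ⊆ {x : X | (k : H) • x = x} := by
    intro y hy
    exact (hsub hy).self_of_nhds ⟨k, hk⟩
  have h3 := hcl.closure_subset_iff.2 h2
  rw [hdense.closure_eq] at h3
  exact h3 (mem_univ x)

/-- the local condition -/
def Tame {X : Type} [TopologicalSpace X] {G : Type} [SMul G X] (V : Set G) (x : X) : Prop :=
  ∃ (n : ℕ) (φ : OpenPartialHomeomorph X (E n)), x ∈ φ.source ∧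
    ((∀ g ∈ V, g • x ∈ φ.source → Good φ x g) ∨
      ∀ g ∈ V, g • x ∈ φ.source → GoodX (fun y => φ y) V x g)

theorem cg_of_chart {X : Type} [TopologicalSpace X] {n : ℕ} (φ : OpenPartialHomeomorph X (E n))
    {x : X} (hx : x ∈ φ.source) : (𝓝 x).IsCountablyGenerated := by
  rw [← φ.symm_map_nhds_eq hx]
  infer_instance

/-- the local theorem for profinite groups -/
theorem local_of_tame {X : Type} [TopologicalSpace X] {G : Type} [Group G]
    [TopologicalSpace G] [MulAction G X] {S : Type} [Group S] [TopologicalSpace S]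
    [IsTopologicalGroup S] [CompactSpace S] [T2Space S] [TotallyDisconnectedSpace S]
    [MulAction S X] [ContinuousSMul S X] (i : S →* G) (hi : Continuous i)
    (his : ∀ (s : S) (x : X), s • x = i s • x) (V : Set G) (hV : V ∈ 𝓝 (1 : G)) (x : X)
    (h : Tame V x) :
    ∃ K : Subgroup S, IsOpen (K : Set S) ∧ ∀ᶠ y in 𝓝 x, ∀ k ∈ K, k • y = y := by
  obtain ⟨n, φ, hφ, hor⟩ := h
  obtain ⟨N, hN⟩ : ∃ N : Subgroup S, IsOpen (N : Set S) ∧ ∀ s ∈ N, i s ∈ V := by
    have h1 : ∀ᶠ s : S in 𝓝 1, i s ∈ V := by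
      have h2 := hi.tendsto 1
      rw [map_one] at h2
      exact h2.eventually hV
    obtain ⟨O, hO1, hOo, h1O⟩ := eventually_nhds_iff.1 h1
    obtain ⟨N, hN⟩ := ProfiniteGrp.exist_openNormalSubgroup_sub_open_nhds_of_one hOo h1O
    exact ⟨N.toSubgroup, N.isOpen', fun s hs => hO1 s (hN hs)⟩
  obtain ⟨hNo, hNV⟩ := hN
  have hNc : IsClosed (N : Set S) := Subgroup.isClosed_of_isOpen N hNo
  have : CompactSpace N := isCompact_iff_compactSpace.1 hNc.isCompact
  have key : ∃ K : Subgroup N, IsOpen (K : Set N) ∧ ∀ᶠ y in 𝓝 x, ∀ k ∈ K, k • y = y := by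
    rcases hor with h1 | h1
    · refine locTriv φ (H := N) x hφ fun s hs => ?_
      have e1 : ((s : S) • x) ∈ φ.source := hs
      rw [his] at e1
      obtain ⟨ρ, hρ, hρN⟩ := h1 (i s) (hNV s s.2) e1
      refine ⟨ρ, hρ, ?_⟩
      have e2 : act φ s = act φ (i (s : S)) := by
        funext y
        show φ ((s : S) • φ.symm y) = φ (i s • φ.symm y)
        rw [his]
      rw [e2]
      exact hρN
    · refine locTrivX (fun y => φ y) φ.source φ.open_source φ.continuousOn (H := N) x hφ
        (cg_of_chart φ hφ) fun s hs => ?_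
      have e1 : ((s : S) • x) ∈ φ.source := hs
      rw [his] at e1
      obtain ⟨W, hW, hWg⟩ := h1 (i s) (hNV s s.2) e1
      refine ⟨W, hW, fun y hy t _ hty hne => ?_⟩
      have e2 : ∀ (u : N) (y : X), u • y = i (u : S) • y := fun u y => his u y
      rw [e2] at hty hne
      rw [e2, e2, e2]
      exact hWg y hy (i t) (hNV t t.2) hty hne
  obtain ⟨K, hKo, hKt⟩ := key
  refine ⟨K.map N.subtype, ?_, ?_⟩
  · rw [Subgroup.coe_map]
    exact hNo.isOpenEmbedding_subtypeVal.isOpenMap _ hKo
  · filter_upwards [hKt] with y hy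
    rintro k ⟨k', hk', rfl⟩
    exact hy k' hk'

open Pool.Agent.W660.GY (NSS)

/-- No small subgroups. -/
theorem nss_main {X : Type} [TopologicalSpace X] [T2Space X]
    {G : Type} [Group G] [TopologicalSpace G] [IsTopologicalGroup G] [LocallyCompactSpace G]
    [MulAction G X] [ContinuousSMul G X] [FaithfulSMul G X]
    (R : Set X) (hdense : Dense R) (hconn : IsPreconnected R)
    (hR : ∀ x ∈ R, ∃ V ∈ 𝓝 (1 : G), Tame V x) : T2Space G ∧ NSS G := by
  have hT2 : T2Space G := by
    refine ⟨fun g h hgh => ?_⟩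
    obtain ⟨x, hx⟩ : ∃ x : X, g • x ≠ h • x := by
      by_contra hall
      push Not at hall
      exact hgh (eq_of_smul_eq_smul hall)
    obtain ⟨u, v, hu, hv, hgu, hhv, huv⟩ := t2_separation hx
    have hc : Continuous (fun g : G => g • x) := by fun_prop
    exact ⟨_, _, hu.preimage hc, hv.preimage hc, hgu, hhv, huv.preimage _⟩
  refine ⟨hT2, Pool.Agent.Y485.HS.nss_of_Z univ univ_mem ?_⟩
  intro S _ _ _ _ _ _ i hi hinj _
  let _ : MulAction S X := MulAction.compHom X i
  have _ : ContinuousSMul S X := ⟨by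
    have h : Continuous (fun q : S × X => i q.1 • q.2) := by fun_prop
    exact h⟩
  obtain ⟨K, hKo, hKt⟩ := globalize (H := S) (X := X) R hdense hconn
    (fun x hx => by
      obtain ⟨V, hV, n, φ, hφ, -⟩ := hR x hx
      exact ⟨n, φ, hφ⟩)
    (fun x hx => by
      obtain ⟨V, hV, h⟩ := hR x hx
      exact local_of_tame i hi (fun s x => rfl) V hV x h)
  have hbot : K = ⊥ := by
    rw [eq_bot_iff]
    intro k hk
    rw [Subgroup.mem_bot]
    apply hinj
    refine eq_of_smul_eq_smul (α := X) fun x => ?_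
    rw [map_one, one_smul]
    exact hKt k hk x
  rw [hbot] at hKo
  refine discreteTopology_of_isOpen_singleton_one ?_
  convert hKo using 1
  ext x
  simp

/-- The group is a Lie group. -/
theorem lie_main {X : Type} [TopologicalSpace X] [T2Space X]
    {G : Type} [Group G] [TopologicalSpace G] [IsTopologicalGroup G] [LocallyCompactSpace G]
    [MulAction G X] [ContinuousSMul G X] [FaithfulSMul G X]
    (R : Set X) (hdense : Dense R) (hconn : IsPreconnected R)
    (hR : ∀ x ∈ R, ∃ V ∈ 𝓝 (1 : G), Tame V x) : Pool.Agent.Y485.HS.IsLie G := by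
  obtain ⟨hT, hN⟩ := nss_main R hdense hconn hR
  haveI := hT
  obtain ⟨E, i1, i2, i3, ⟨C⟩⟩ := Pool.Agent.Y328.HS.lga G hN
  letI := i1
  letI := i2
  haveI := i3
  exact Pool.Agent.Y286.HS.lgb G E C

end Pool.Agent.X169.HT
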