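import Pool.Agent.Y485.HS.Stm

/-! The local theorem for groups of almost affine maps, constant one half. -/

set_option autoImplicit false

open Set Filter Topology Metric Function MeasureTheory
open scoped RealInnerProductSpace

noncomputable section

namespace Pool.Agent.X169.HT

open Pool.Agent.Y485.HS (E)

/-- the second differences of `f` are at most one half of the first ones -/
def NA {n : ℕ} (f : E n → E n) (z : E n) (a : ℝ) : Prop :=
  ∀ p v : E n, ‖p - z‖ ≤ a → ‖v‖ ≤ a →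
    ‖f (p + v) + f (p - v) - (2 : ℝ) • f p‖ ≤ 1 / 2 * ‖f (p + v) - f p‖

/-- Apollonius -/
theorem apo {n : ℕ} (d e : E n) (h : ‖e - d‖ ≤ 1 / 2 * ‖e‖) :
    ‖e - (4 / 3 : ℝ) • d‖ ≤ 2 / 3 * ‖d‖ := by
  have h1 : ‖e - d‖ ^ 2 ≤ (1 / 2 * ‖e‖) ^ 2 := pow_le_pow_left₀ (norm_nonneg _) h 2
  rw [norm_sub_sq_real] at h1
  have h2 : ‖e - (4 / 3 : ℝ) • d‖ ^ 2 ≤ (2 / 3 * ‖d‖) ^ 2 := by
    rw [norm_sub_sq_real, inner_smul_right, norm_smul, Real.norm_of_nonneg (by norm_num)]
    nlinarith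
  exact abs_le_of_sq_le_sq' h2 (by positivity) |>.2

/-- separation of the long differences -/
theorem sep {n : ℕ} (d d1 d2 d' d1' d2' : E n) (h1 : ‖d1 - d‖ ≤ 1 / 2 * ‖d1‖)
    (h2 : ‖d2 - d‖ ≤ 1 / 2 * ‖d2‖) (h1' : ‖d1' - d'‖ ≤ 1 / 2 * ‖d'‖)
    (h2' : ‖d2' - d'‖ ≤ 1 / 2 * ‖d'‖) (hdd : ⟪d, d'⟫ ≤ 0) :
    21 / 10 * ‖d‖ ≤ ‖(d1 + d + d2) - (d1' + d' + d2')‖ := by
  have a1 := apo d d1 h1
  have a2 := apo d d2 h2
  have hM := norm_nonneg d
  have hb := norm_nonneg d'
  have h3 : 103 / 30 * ‖d‖ + ‖d'‖ ≤ ‖(11 / 3 : ℝ) • d - (3 : ℝ) • d'‖ := by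
    have e1 : ‖(11 / 3 : ℝ) • d - (3 : ℝ) • d'‖ ^ 2 =
        121 / 9 * ‖d‖ ^ 2 + 9 * ‖d'‖ ^ 2 - 22 * ⟪d, d'⟫ := by
      rw [norm_sub_sq_real, inner_smul_right, inner_smul_left, norm_smul, norm_smul,
        Real.norm_of_nonneg (by norm_num), Real.norm_of_nonneg (by norm_num)]
      simp only [conj_trivial]
      ring
    have e2 : (103 / 30 * ‖d‖ + ‖d'‖) ^ 2 ≤ ‖(11 / 3 : ℝ) • d - (3 : ℝ) • d'‖ ^ 2 := by
      rw [e1]
      nlinarith [sq_nonneg (‖d'‖ - 43 / 100 * ‖d‖), sq_nonneg ‖d‖]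
    exact abs_le_of_sq_le_sq' e2 (norm_nonneg _) |>.2
  have e3 : (11 / 3 : ℝ) • d - (3 : ℝ) • d' = ((d1 + d + d2) - (d1' + d' + d2')) -
      (d1 - (4 / 3 : ℝ) • d) - (d2 - (4 / 3 : ℝ) • d) + (d1' - d') + (d2' - d') := by
    module
  rw [e3] at h3
  have f1 := norm_add_le (((d1 + d + d2) - (d1' + d' + d2')) -
      (d1 - (4 / 3 : ℝ) • d) - (d2 - (4 / 3 : ℝ) • d) + (d1' - d')) (d2' - d')
  have f2 := norm_add_le (((d1 + d + d2) - (d1' + d' + d2')) -
      (d1 - (4 / 3 : ℝ) • d) - (d2 - (4 / 3 : ℝ) • d)) (d1' - d')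
  have f3 := norm_sub_le (((d1 + d + d2) - (d1' + d' + d2')) -
      (d1 - (4 / 3 : ℝ) • d)) (d2 - (4 / 3 : ℝ) • d)
  have f4 := norm_sub_le ((d1 + d + d2) - (d1' + d' + d2')) (d1 - (4 / 3 : ℝ) • d)
  linarith

/-- the four differences along a progression -/
theorem prog {n : ℕ} (f : E n → E n) (z : E n) (a : ℝ) (hf : NA f z (3 * a))
    (p v : E n) (hp : ‖p - z‖ ≤ 2 * a) (hv : ‖v‖ ≤ a) :
    ‖(f (p + (2 : ℝ) • v) - f (p + v)) - (f (p + v) - f p)‖ ≤
        1 / 2 * ‖f (p + (2 : ℝ) • v) - f (p + v)‖ ∧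
      ‖(f (p + (2 : ℝ) • v) - f (p + v)) - (f (p + v) - f p)‖ ≤ 1 / 2 * ‖f (p + v) - f p‖ ∧
      ‖(f p - f (p - v)) - (f (p + v) - f p)‖ ≤ 1 / 2 * ‖f p - f (p - v)‖ ∧
      ‖(f p - f (p - v)) - (f (p + v) - f p)‖ ≤ 1 / 2 * ‖f (p + v) - f p‖ := by
  have ha : 0 ≤ a := (norm_nonneg _).trans hv
  have hpv : ‖p + v - z‖ ≤ 3 * a := by
    have e : p + v - z = (p - z) + v := by abel
    rw [e]
    refine (norm_add_le _ _).trans ?_
    linarith
  have c1 := hf (p + v) v hpv (by linarith)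
  have c2 := hf (p + v) (-v) hpv (by rw [norm_neg]; linarith)
  have c3 := hf p v (by linarith) (by linarith)
  have c4 := hf p (-v) (by linarith) (by rw [norm_neg]; linarith)
  have e1 : p + v + v = p + (2 : ℝ) • v := by module
  have e2 : p + v - v = p := by abel
  have e3 : p + v + -v = p := by abel
  have e4 : p + v - -v = p + (2 : ℝ) • v := by module
  have e5 : p + -v = p - v := by abel
  have e6 : p - -v = p + v := by abel
  rw [e1, e2] at c1
  rw [e3, e4, norm_sub_rev (f p)] at c2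
  rw [e5, e6, norm_sub_rev (f (p - v))] at c4
  refine ⟨?_, ?_, ?_, ?_⟩
  · have e : (f (p + (2 : ℝ) • v) - f (p + v)) - (f (p + v) - f p) =
        f (p + (2 : ℝ) • v) + f p - (2 : ℝ) • f (p + v) := by module
    rw [e]
    exact c1
  · have e : (f (p + (2 : ℝ) • v) - f (p + v)) - (f (p + v) - f p) =
        f p + f (p + (2 : ℝ) • v) - (2 : ℝ) • f (p + v) := by module
    rw [e]
    exact c2
  · have e : (f p - f (p - v)) - (f (p + v) - f p) =
        -(f (p - v) + f (p + v) - (2 : ℝ) • f p) := by module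
    rw [e, norm_neg]
    exact c4
  · have e : (f p - f (p - v)) - (f (p + v) - f p) =
        -(f (p + v) + f (p - v) - (2 : ℝ) • f p) := by module
    rw [e, norm_neg]
    exact c3

/-- a lower bound for the displacement -/
theorem lb {n : ℕ} (f : E n → E n) (z : E n) (a r c : ℝ) (ha : 0 < a) (hf : NA f z (3 * a))
    (hr : r ≤ a) (hc0 : 0 < c)
    (hc : ∀ p w : E n, ‖p - z‖ ≤ 2 * a → r / 2 ≤ ‖w‖ → ‖w‖ ≤ r → c ≤ ‖f (p + w) - f p‖) :
    ∀ (i : ℕ) (p v : E n), ‖p - z‖ ≤ 2 * a → ‖v‖ ≤ r →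
      ‖f (p + v) - f p‖ ≤ c / 3 ^ i → ‖v‖ ≤ r / 2 ^ i := by
  intro i
  induction i with
  | zero =>
    intro p v _ hv _
    simpa using hv
  | succ i ih =>
    intro p v hp hv h
    by_cases h2 : ‖v‖ ≤ r / 2
    · have h2v : ‖(2 : ℝ) • v‖ = 2 * ‖v‖ := by
        rw [norm_smul, Real.norm_of_nonneg (by norm_num)]
      have h3 : ‖f (p + (2 : ℝ) • v) - f p‖ ≤ 3 * ‖f (p + v) - f p‖ := by
        have e1 := (prog f z a hf p v hp (by linarith)).2.1
        have e4 : f (p + (2 : ℝ) • v) - f p =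
            ((f (p + (2 : ℝ) • v) - f (p + v)) - (f (p + v) - f p)) +
              (2 : ℝ) • (f (p + v) - f p) := by module
        rw [e4]
        refine (norm_add_le _ _).trans ?_
        have e5 : ‖(2 : ℝ) • (f (p + v) - f p)‖ = 2 * ‖f (p + v) - f p‖ := by
          rw [norm_smul, Real.norm_of_nonneg (by norm_num)]
        rw [e5]
        have := norm_nonneg (f (p + v) - f p)
        linarith
      have h4 := ih p ((2 : ℝ) • v) hp (by rw [h2v]; linarith) (by
        refine h3.trans ?_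
        rw [pow_succ] at h
        have : c / (3 ^ i * 3) * 3 = c / 3 ^ i := by field_simp
        linarith)
      rw [h2v] at h4
      rw [pow_succ]
      have : r / (2 ^ i * 2) * 2 = r / 2 ^ i := by field_simp
      linarith
    · exfalso
      push Not at h2
      have h3 := hc p v hp h2.le hv
      have h4 : c / 3 ^ (i + 1) < c := by
        apply div_lt_self hc0
        exact one_lt_pow₀ (by norm_num) (by omega)
      linarith

/-- **The local theorem.** -/
theorem loc {n : ℕ} {H : Type} [Group H] [TopologicalSpace H] [IsTopologicalGroup H]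
    (T : H → E n → E n) (z : E n) (a : ℝ) (ha : 0 < a)
    (hT : ContinuousOn (fun q : H × E n => T q.1 q.2) (univ ×ˢ closedBall z (6 * a)))
    (hmul : ∀ h k, ∀ x ∈ closedBall z (6 * a), T k x ∈ closedBall z (6 * a) →
      T (h * k) x = T h (T k x))
    (K : Subgroup H) (hK : IsCompact (K : Set H)) (h₀ : H)
    (hNA : ∀ k ∈ K, NA (T (h₀ * k)) z (3 * a)) (c : ℝ) (hc0 : 0 < c)
    (hc : ∀ p w : E n, ‖p - z‖ ≤ 2 * a → a / 192 ≤ ‖w‖ → ‖w‖ ≤ a / 96 →
      c ≤ ‖T h₀ (p + w) - T h₀ p‖)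
    (hd : ∀ k ∈ K, ∀ p : E n, ‖p - z‖ ≤ 2 * a → ‖T k p - p‖ ≤ a / 96 ∧
      ‖T (h₀ * k) p - T h₀ p‖ ≤ c / 2) :
    ∀ k ∈ K, ∀ p : E n, ‖p - z‖ ≤ a → T k p = p := by
  classical
  have : CompactSpace K := isCompact_iff_compactSpace.1 hK
  let _ : MeasurableSpace K := borel K
  have : BorelSpace K := ⟨rfl⟩
  obtain ⟨μ, hμ1, hμ2⟩ : ∃ μ : Measure K, μ.IsMulLeftInvariant ∧ IsProbabilityMeasure μ := by
    refine ⟨Measure.haarMeasure ⊤, inferInstance, ⟨?_⟩⟩
    have := Measure.haarMeasure_self (G := K) (K₀ := ⊤)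
    simpa using this
  have hmem : ∀ p : E n, ‖p - z‖ ≤ 6 * a → p ∈ closedBall z (6 * a) := fun p hp => by
    rwa [mem_closedBall, dist_eq_norm]
  -- continuity in the group variable
  have hcont : ∀ p : E n, ‖p - z‖ ≤ 6 * a → Continuous fun h : H => T h p := by
    intro p hp
    have e1 : ContinuousOn (fun h : H => ((h, p) : H × E n)) univ := by fun_prop
    have e2 : ContinuousOn (fun h : H => T h p) univ :=
      hT.comp e1 fun h _ => ⟨mem_univ _, hmem p hp⟩
    exact continuousOn_univ.1 e2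
  have hcontK : ∀ p : E n, ‖p - z‖ ≤ 6 * a → Continuous fun k : K => T (h₀ * (k : H)) p := by
    intro p hp
    exact (hcont p hp).comp (by fun_prop)
  have hcontK' : ∀ p : E n, ‖p - z‖ ≤ 6 * a → Continuous fun k : K => T (h₀ * (k : H)⁻¹) p := by
    intro p hp
    exact (hcont p hp).comp (by fun_prop)
  have hint : ∀ p : E n, ‖p - z‖ ≤ 6 * a → Integrable (fun k : K => T (h₀ * (k : H)⁻¹) p) μ :=
    fun p hp => (hcontK' p hp).integrable_of_hasCompactSupport (HasCompactSupport.of_compactSpace _)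
  -- invariance of the average
  have hinv : ∀ (g : K) (p : E n), ‖p - z‖ ≤ 2 * a →
      ∫ k : K, T (h₀ * (k : H)⁻¹) (T g p) ∂μ = ∫ k : K, T (h₀ * (k : H)⁻¹) p ∂μ := by
    intro g p hp
    have e0 : ‖T g p - z‖ ≤ 6 * a := by
      have e1 := (hd g g.2 p hp).1
      have e2 : T g p - z = (T g p - p) + (p - z) := by abel
      rw [e2]
      refine (norm_add_le _ _).trans ?_
      linarith
    have e3 := integral_mul_left_eq_self (μ := μ) (fun k : K => T (h₀ * (k : H)⁻¹) p) g⁻¹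
    rw [← e3]
    congr 1
    funext k
    rw [← hmul _ _ p (hmem p (by linarith)) (hmem _ e0)]
    congr 1
    simp [mul_assoc]
  have hNA1 : NA (T h₀) z (3 * a) := by
    have := hNA 1 K.one_mem
    rwa [mul_one] at this
  -- one step
  have step : ∀ (s R ρ : ℝ) (i : ℕ), s ≤ c / 3 ^ i → R ≤ 2 * a → ρ + 2 * (a / 96 / 2 ^ i) ≤ R →
      (∀ p : E n, ‖p - z‖ ≤ R → ∀ k ∈ K, ∀ k' ∈ K, ‖T (h₀ * k) p - T (h₀ * k') p‖ ≤ s) →
      ∀ p : E n, ‖p - z‖ ≤ ρ → ∀ k ∈ K, ∀ k' ∈ K,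
        ‖T (h₀ * k) p - T (h₀ * k') p‖ ≤ 20 / 21 * s := by
    intro s R ρ i hs hR hρ hsR p hp k hk k' hk'
    have hr0 : 0 < a / 96 / 2 ^ i := by positivity
    obtain ⟨g, hg⟩ : ∃ g, g = k'⁻¹ * k := ⟨_, rfl⟩
    have hgK : g ∈ K := by
      rw [hg]
      exact K.mul_mem (K.inv_mem hk') hk
    have hp2 : ‖p - z‖ ≤ 2 * a := by linarith
    obtain ⟨v, hv⟩ : ∃ v, v = T g p - p := ⟨_, rfl⟩
    have hgp : T g p = p + v := by rw [hv]; abel
    have hv1 : ‖v‖ ≤ a / 96 := by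
      rw [hv]
      exact (hd g hgK p hp2).1
    have hgp6 : ‖p + v - z‖ ≤ 6 * a := by
      have e2 : p + v - z = v + (p - z) := by abel
      rw [e2]
      refine (norm_add_le _ _).trans ?_
      linarith
    have hTg : ∀ h : H, T (h * g) p = T h (p + v) := by
      intro h
      rw [hmul h g p (hmem p (by linarith)) (hmem _ (by rw [hgp]; exact hgp6)), hgp]
    -- the displacement
    have hv2 : ‖v‖ ≤ a / 96 / 2 ^ i := by
      refine lb (T h₀) z a (a / 96) c ha hNA1 (by linarith) hc0 ?_ i p v hp2 hv1 ?_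
      · intro p w hp hw hw'
        exact hc p w hp (by linarith) hw'
      · rw [← hTg]
        have e1 := hsR p (by linarith) g hgK 1 K.one_mem
        rw [mul_one] at e1
        exact e1.trans hs
    have hp2v : ‖p + (2 : ℝ) • v - z‖ ≤ R := by
      have e1 : p + (2 : ℝ) • v - z = (p - z) + (2 : ℝ) • v := by abel
      rw [e1]
      refine (norm_add_le _ _).trans ?_
      rw [norm_smul, Real.norm_of_nonneg (by norm_num)]
      linarith
    have hpmv : ‖p - v - z‖ ≤ R := by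
      have e1 : p - v - z = (p - z) - v := by abel
      rw [e1]
      refine (norm_sub_le _ _).trans ?_
      linarith
    -- the differences
    set Δ : K → E n := fun k => T (h₀ * (k : H)) (p + v) - T (h₀ * (k : H)) p with hΔ
    have hΔc : Continuous Δ := (hcontK _ hgp6).sub (hcontK p (by linarith))
    have hmean : ∫ k : K, Δ k⁻¹ ∂μ = 0 := by
      have e1 := hinv ⟨g, hgK⟩ p hp2
      simp only [hgp] at e1
      have e2 : ∫ k : K, Δ k⁻¹ ∂μ = ∫ k : K, T (h₀ * (k : H)⁻¹) (p + v) ∂μ -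
          ∫ k : K, T (h₀ * (k : H)⁻¹) p ∂μ := by
        rw [← integral_sub (hint _ hgp6) (hint p (by linarith))]
        rfl
      rw [e2, e1, sub_self]
    have hΔi : Integrable (fun k : K => Δ k⁻¹) μ := by
      refine (Continuous.integrable_of_hasCompactSupport ?_ (HasCompactSupport.of_compactSpace _))
      exact hΔc.comp continuous_inv
    obtain ⟨m', hm'⟩ : ∃ m' : K, ⟪Δ ⟨k', hk'⟩, Δ m'⟫ ≤ 0 := by
      have e1 : Integrable (fun k : K => ⟪Δ ⟨k', hk'⟩, Δ k⁻¹⟫) μ := hΔi.const_inner _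
      obtain ⟨x, hx⟩ := exists_le_integral e1
      have e2 : ∫ k : K, ⟪Δ ⟨k', hk'⟩, Δ k⁻¹⟫ ∂μ = ⟪Δ ⟨k', hk'⟩, ∫ k : K, Δ k⁻¹ ∂μ⟫ :=
        integral_inner hΔi _
      rw [e2, hmean, inner_zero_right] at hx
      exact ⟨x⁻¹, hx⟩
    have b1 := prog (T (h₀ * k')) z a (hNA k' hk') p v hp2 (by linarith)
    have b2 := prog (T (h₀ * (m' : H))) z a (hNA _ m'.2) p v hp2 (by linarith)
    have key := sep (Δ ⟨k', hk'⟩) (T (h₀ * k') (p + (2 : ℝ) • v) - T (h₀ * k') (p + v))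
      (T (h₀ * k') p - T (h₀ * k') (p - v)) (Δ m')
      (T (h₀ * (m' : H)) (p + (2 : ℝ) • v) - T (h₀ * (m' : H)) (p + v))
      (T (h₀ * (m' : H)) p - T (h₀ * (m' : H)) (p - v)) b1.1 b1.2.2.1 b2.2.1 b2.2.2.2 hm'
    have e5 : (T (h₀ * k') (p + (2 : ℝ) • v) - T (h₀ * k') (p + v) + Δ ⟨k', hk'⟩ +
        (T (h₀ * k') p - T (h₀ * k') (p - v))) -
        (T (h₀ * (m' : H)) (p + (2 : ℝ) • v) - T (h₀ * (m' : H)) (p + v) + Δ m' +
        (T (h₀ * (m' : H)) p - T (h₀ * (m' : H)) (p - v))) =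
        (T (h₀ * k') (p + (2 : ℝ) • v) - T (h₀ * (m' : H)) (p + (2 : ℝ) • v)) -
        (T (h₀ * k') (p - v) - T (h₀ * (m' : H)) (p - v)) := by
      simp only [hΔ]
      abel
    rw [e5] at key
    have f1 := norm_sub_le (T (h₀ * k') (p + (2 : ℝ) • v) - T (h₀ * (m' : H)) (p + (2 : ℝ) • v))
      (T (h₀ * k') (p - v) - T (h₀ * (m' : H)) (p - v))
    have f2 := hsR _ hp2v k' hk' m' m'.2
    have f3 := hsR _ hpmv k' hk' m' m'.2
    have e6 : T (h₀ * k) p - T (h₀ * k') p = Δ ⟨k', hk'⟩ := by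
      simp only [hΔ]
      rw [← hTg, hg]
      congr 2
      group
    rw [e6]
    linarith
  -- many steps
  have hpow20 : ((20 : ℝ) / 21) ^ 24 ≤ 1 / 3 := by norm_num
  have claim : ∀ (i : ℕ) (p : E n), ‖p - z‖ ≤ a + a / 2 ^ i → ∀ k ∈ K, ∀ k' ∈ K,
      ‖T (h₀ * k) p - T (h₀ * k') p‖ ≤ c / 3 ^ i := by
    intro i
    induction i with
    | zero =>
      intro p hp k hk k' hk'
      rw [pow_zero, div_one] at hp ⊢
      have e1 := (hd k hk p (by linarith)).2
      have e2 := (hd k' hk' p (by linarith)).2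
      have e3 : T (h₀ * k) p - T (h₀ * k') p =
          (T (h₀ * k) p - T h₀ p) - (T (h₀ * k') p - T h₀ p) := by abel
      rw [e3]
      refine (norm_sub_le _ _).trans ?_
      linarith
    | succ i ih =>
      have hc3 : 0 < c / 3 ^ i := by positivity
      have hpow1 : a / 2 ^ i ≤ a := div_le_self ha.le (one_le_pow₀ (by norm_num))
      have inner : ∀ (j : ℕ), ∀ p : E n, ‖p - z‖ ≤ a + a / 2 ^ i - j * (2 * (a / 96 / 2 ^ i)) →
          ∀ k ∈ K, ∀ k' ∈ K, ‖T (h₀ * k) p - T (h₀ * k') p‖ ≤ (20 / 21) ^ j * (c / 3 ^ i) := by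
        intro j
        induction j with
        | zero =>
          intro p hp k hk k' hk'
          rw [pow_zero, one_mul]
          refine ih p ?_ k hk k' hk'
          simpa using hp
        | succ j ihj =>
          intro p hp k hk k' hk'
          have hr0 : 0 < a / 96 / 2 ^ i := by positivity
          have e1 := step ((20 / 21) ^ j * (c / 3 ^ i))
            (a + a / 2 ^ i - j * (2 * (a / 96 / 2 ^ i)))
            (a + a / 2 ^ i - (j + 1 : ℕ) * (2 * (a / 96 / 2 ^ i))) i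
            (mul_le_of_le_one_left hc3.le (pow_le_one₀ (by norm_num) (by norm_num)))
            (by
              have : 0 ≤ j * (2 * (a / 96 / 2 ^ i)) := by positivity
              linarith)
            (by push_cast; linarith) ihj p hp k hk k' hk'
          refine e1.trans (le_of_eq ?_)
          rw [pow_succ]
          ring
      intro p hp k hk k' hk'
      have e1 : a / 2 ^ (i + 1) = a / 2 ^ i / 2 := by
        rw [pow_succ]
        field_simp
      have e2 : ((24 : ℕ) : ℝ) * (2 * (a / 96 / 2 ^ i)) = a / 2 ^ i / 2 := by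
        push_cast
        field_simp
        norm_num
      have e3 := inner 24 p (by rw [e2]; rw [e1] at hp; linarith) k hk k' hk'
      refine e3.trans ?_
      have e4 : c / 3 ^ (i + 1) = 1 / 3 * (c / 3 ^ i) := by
        rw [pow_succ]
        field_simp
      rw [e4]
      exact mul_le_mul_of_nonneg_right hpow20 hc3.le
  intro k hk p hp
  have hp2 : ‖p - z‖ ≤ 2 * a := by linarith
  have hv1 := (hd k hk p hp2).1
  have hgp : T k p = p + (T k p - p) := by abel
  have hgp6 : ‖T k p - z‖ ≤ 6 * a := by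
    have e2 : T k p - z = (T k p - p) + (p - z) := by abel
    rw [e2]
    refine (norm_add_le _ _).trans ?_
    linarith
  have hv2 : ∀ i : ℕ, ‖T k p - p‖ ≤ a / 96 / 2 ^ i := by
    intro i
    refine lb (T h₀) z a (a / 96) c ha hNA1 (by linarith) hc0 ?_ i p (T k p - p) hp2 hv1 ?_
    · intro p w hp hw hw'
      exact hc p w hp (by linarith) hw'
    · rw [← hgp, ← hmul h₀ k p (hmem p (by linarith)) (hmem _ hgp6)]
      have := claim i p (by
        have : 0 < a / 2 ^ i := by positivity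
        linarith) k hk 1 K.one_mem
      rwa [mul_one] at this
  have hlim : Tendsto (fun i : ℕ => a / 96 / 2 ^ i) atTop (𝓝 0) := by
    have h2 := tendsto_pow_atTop_nhds_zero_of_lt_one (r := (1 / 2 : ℝ)) (by norm_num) (by norm_num)
    have h3 := h2.const_mul (a / 96)
    rw [mul_zero] at h3
    refine h3.congr fun i => ?_
    rw [one_div, inv_pow]
    rfl
  have h0 : ‖T k p - p‖ ≤ 0 := ge_of_tendsto' hlim hv2
  exact sub_eq_zero.1 (norm_le_zero_iff.1 h0)

end Pool.Agent.X169.HT
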