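import Pool.Agent.X169.HT.Act

/-! Groups which do not turn displacement vectors by a right angle. -/

set_option autoImplicit false

open Set Filter Topology Metric Function MeasureTheory
open scoped RealInnerProductSpace

noncomputable section

namespace Pool.Agent.X169.HT

variable {X : Type} [TopologicalSpace X] {F : Type} [NormedAddCommGroup F]
  [InnerProductSpace ℝ F] [CompleteSpace F]

/-- **The local theorem.** -/
theorem locX {H : Type} [Group H] [TopologicalSpace H] [IsTopologicalGroup H] [MulAction H X]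
    [ContinuousSMul H X] (Ψ : X → F) (O : Set X) (hΨ : ContinuousOn Ψ O) (K : Subgroup H)
    (hK : IsCompact (K : Set H)) (h₀ g : H) (hg : g ∈ K) (y : X)
    (hy : ∀ k ∈ K, (h₀ * k) • y ∈ O)
    (hw : ∀ k ∈ K, 0 ≤ ⟪Ψ ((h₀ * k) • g • y) - Ψ ((h₀ * k) • y), Ψ (g • y) - Ψ y⟫)
    (hs : 0 < ⟪Ψ (h₀ • g • y) - Ψ (h₀ • y), Ψ (g • y) - Ψ y⟫) : False := by
  classical
  have : CompactSpace K := isCompact_iff_compactSpace.1 hK
  let _ : MeasurableSpace K := borel K
  have : BorelSpace K := ⟨rfl⟩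
  obtain ⟨μ, hμ1, hμ2, hμ3⟩ : ∃ μ : Measure K, μ.IsMulLeftInvariant ∧ IsProbabilityMeasure μ ∧
      μ.IsOpenPosMeasure := by
    refine ⟨Measure.haarMeasure ⊤, inferInstance, ⟨?_⟩, inferInstance⟩
    have := Measure.haarMeasure_self (G := K) (K₀ := ⊤)
    simpa using this
  have hcont : ∀ w : X, (∀ k ∈ K, (h₀ * k) • w ∈ O) →
      Continuous fun k : K => Ψ ((h₀ * (k : H)⁻¹) • w) := by
    intro w hw
    have e1 : Continuous fun k : K => (h₀ * (k : H)⁻¹) • w := by fun_prop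
    exact hΨ.comp_continuous e1 fun k => hw _ (K.inv_mem k.2)
  have hgy : ∀ k ∈ K, (h₀ * k) • g • y ∈ O := by
    intro k hk
    rw [smul_smul, mul_assoc]
    exact hy _ (K.mul_mem hk hg)
  have c1 := hcont _ hgy
  have c2 := hcont _ hy
  have hinv : ∫ k : K, Ψ ((h₀ * (k : H)⁻¹) • g • y) ∂μ = ∫ k : K, Ψ ((h₀ * (k : H)⁻¹) • y) ∂μ := by
    have e3 := integral_mul_left_eq_self (μ := μ) (fun k : K => Ψ ((h₀ * (k : H)⁻¹) • y))
      (⟨g, hg⟩ : K)⁻¹
    rw [← e3]
    congr 1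
    funext k
    rw [smul_smul]
    congr 2
    simp [mul_assoc]
  have i1 : Integrable (fun k : K => Ψ ((h₀ * (k : H)⁻¹) • g • y)) μ :=
    c1.integrable_of_hasCompactSupport (HasCompactSupport.of_compactSpace _)
  have i2 : Integrable (fun k : K => Ψ ((h₀ * (k : H)⁻¹) • y)) μ :=
    c2.integrable_of_hasCompactSupport (HasCompactSupport.of_compactSpace _)
  have hz : ∫ k : K, (Ψ ((h₀ * (k : H)⁻¹) • g • y) - Ψ ((h₀ * (k : H)⁻¹) • y)) ∂μ = 0 := by
    rw [integral_sub i1 i2, hinv, sub_self]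
  have i3 : Integrable
      (fun k : K => Ψ ((h₀ * (k : H)⁻¹) • g • y) - Ψ ((h₀ * (k : H)⁻¹) • y)) μ := i1.sub i2
  have hz2 := integral_inner (𝕜 := ℝ) i3 (Ψ (g • y) - Ψ y)
  rw [hz, inner_zero_right] at hz2
  have cc : Continuous fun k : K =>
      ⟪Ψ (g • y) - Ψ y, Ψ ((h₀ * (k : H)⁻¹) • g • y) - Ψ ((h₀ * (k : H)⁻¹) • y)⟫ :=
    continuous_const.inner (c1.sub c2)
  have hpos : 0 < ∫ k : K,
      ⟪Ψ (g • y) - Ψ y, Ψ ((h₀ * (k : H)⁻¹) • g • y) - Ψ ((h₀ * (k : H)⁻¹) • y)⟫ ∂μ := by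
    refine cc.integral_pos_of_hasCompactSupport_nonneg_nonzero
      (HasCompactSupport.of_compactSpace _) (fun k => ?_) (x := 1) ?_
    · have h1 := hw _ (K.inv_mem k.2)
      rw [real_inner_comm]
      exact h1
    · rw [real_inner_comm]
      simp only [OneMemClass.coe_one, inv_one, mul_one]
      exact hs.ne'
  rw [hz2] at hpos
  exact lt_irrefl _ hpos

/-- near `x` the element `g` does not turn the displacement vectors of the elements of `V` by a
right angle or more -/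
def GoodX (Ψ : X → F) {H : Type} [SMul H X] (V : Set H) (x : X) (g : H) : Prop :=
  ∃ W ∈ 𝓝 x, ∀ y ∈ W, ∀ h ∈ V, h • y ∈ W → h • y ≠ y →
    0 < ⟪Ψ (g • h • y) - Ψ (g • y), Ψ (h • y) - Ψ y⟫

/-- Near every regular point an open subgroup acts trivially. -/
theorem locTrivX (Ψ : X → F) (O : Set X) (hO : IsOpen O)
    (hΨ : ContinuousOn Ψ O) {H : Type}
    [Group H] [TopologicalSpace H] [IsTopologicalGroup H] [CompactSpace H] [T2Space H]
    [TotallyDisconnectedSpace H] [MulAction H X] [ContinuousSMul H X] (x0 : X) (hx0 : x0 ∈ O)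
    (hcg : (𝓝 x0).IsCountablyGenerated)
    (hgood : ∀ h : H, h • x0 ∈ O → GoodX Ψ (univ : Set H) x0 h) :
    ∃ K : Subgroup H, IsOpen (K : Set H) ∧ ∀ᶠ x in 𝓝 x0, ∀ k ∈ K, k • x = x := by
  -- an open subgroup which maps the point into the domain
  obtain ⟨H0, hH0o, hH0s⟩ : ∃ H0 : Subgroup H, IsOpen (H0 : Set H) ∧
      ∀ h ∈ H0, h • x0 ∈ O := by
    have hc : Continuous fun h : H => h • x0 := by fun_prop
    obtain ⟨N, hN⟩ := ProfiniteGrp.exist_openNormalSubgroup_sub_open_nhds_of_one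
      (hO.preimage hc) (by
        rw [mem_preimage, one_smul]
        exact hx0)
    exact ⟨N.toSubgroup, N.isOpen', fun h hh => hN hh⟩
  have hH0c : IsClosed (H0 : Set H) := Subgroup.isClosed_of_isOpen H0 hH0o
  have hcomp : CompactSpace H0 := isCompact_iff_compactSpace.1 hH0c.isCompact
  have hstay : ∀ᶠ y in 𝓝 x0, ∀ h ∈ (univ : Set H0), h • y ∈ O := by
    apply isCompact_univ.eventually_forall_of_forall_eventually
    intro h _
    have c2 : ContinuousAt (fun q : X × H0 => q.2 • q.1) (x0, h) := by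
      have : Continuous (fun q : X × H0 => q.2 • q.1) := by fun_prop
      exact this.continuousAt
    exact c2.eventually_mem (hO.mem_nhds (hH0s h h.2))
  obtain ⟨B, hB⟩ := (𝓝 x0).exists_antitone_basis
  set W0 : Set X := {y | ∀ h ∈ (univ : Set H0), h • y ∈ O} with hW0
  have hW0m : W0 ∈ 𝓝 x0 := hstay
  -- Baire's theorem
  set S : ℕ → Set H0 := fun m => {h : H0 | ∀ y ∈ B m ∩ W0, ∀ g : H0, g • y ∈ B m ∩ W0 →
    0 ≤ ⟪Ψ (h • g • y) - Ψ (h • y), Ψ (g • y) - Ψ y⟫} with hS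
  have hclosed : ∀ m, IsClosed (S m) := by
    intro m
    have e1 : S m = ⋂ (y : X) (_ : y ∈ B m ∩ W0) (g : H0) (_ : g • y ∈ B m ∩ W0),
        {h : H0 | 0 ≤ ⟪Ψ (h • g • y) - Ψ (h • y), Ψ (g • y) - Ψ y⟫} := by
      ext h
      simp only [mem_iInter]
      rfl
    rw [e1]
    refine isClosed_iInter fun y => isClosed_iInter fun hy => isClosed_iInter fun g =>
      isClosed_iInter fun hg => ?_
    have c1 : Continuous fun h : H0 => Ψ (h • g • y) := by
      have : Continuous fun h : H0 => h • g • y := by fun_prop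
      exact hΨ.comp_continuous this fun h => hg.2 h (mem_univ _)
    have c2 : Continuous fun h : H0 => Ψ (h • y) := by
      have : Continuous fun h : H0 => h • y := by fun_prop
      exact hΨ.comp_continuous this fun h => hy.2 h (mem_univ _)
    exact isClosed_le continuous_const ((c1.sub c2).inner continuous_const)
  have hcov : ⋃ m, S m = univ := by
    rw [eq_univ_iff_forall]
    intro h
    obtain ⟨W, hW, hWg⟩ := hgood (h : H) (hH0s h h.2)
    obtain ⟨m, hm⟩ := hB.mem_iff.1 hW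
    refine mem_iUnion.2 ⟨m, ?_⟩
    intro y hy g hg
    by_cases hne : g • y = y
    · rw [hne, sub_self, sub_self, inner_zero_left]
    · exact (hWg y (hm hy.1) (g : H) (mem_univ _) (hm hg.1) hne).le
  have hne : Nonempty H0 := ⟨1⟩
  obtain ⟨m, h₀, hh₀⟩ := nonempty_interior_of_iUnion_of_closed hclosed hcov
  obtain ⟨W, hW, hWg⟩ := hgood (h₀ : H) (hH0s h₀ h₀.2)
  have hU : B m ∩ W0 ∩ W ∈ 𝓝 x0 := inter_mem (inter_mem (hB.mem m) hW0m) hW
  -- a small subgroup
  have hsm : ∀ᶠ q : H0 × X in 𝓝 (1, x0), q.1 • q.2 ∈ B m ∩ W0 ∩ W := by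
    have c2 : ContinuousAt (fun q : H0 × X => q.1 • q.2) (1, x0) := by
      have : Continuous (fun q : H0 × X => q.1 • q.2) := by fun_prop
      exact this.continuousAt
    refine c2.eventually_mem ?_
    simp only [one_smul]
    exact hU
  rw [nhds_prod_eq] at hsm
  obtain ⟨P1, hP1, P2, hP2, hP⟩ := eventually_prod_iff.1 hsm
  have hint : ∀ᶠ k : H0 in 𝓝 1, h₀ * k ∈ interior (S m) := by
    have e1 : Tendsto (fun k : H0 => h₀ * k) (𝓝 1) (𝓝 h₀) := by
      have : Continuous (fun k : H0 => h₀ * k) := by fun_prop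
      have h := this.tendsto 1
      simpa using h
    exact e1.eventually (isOpen_interior.mem_nhds hh₀)
  obtain ⟨O1, hO1, hO1o, h1O⟩ := eventually_nhds_iff.1 (hP1.and hint)
  obtain ⟨N, hN⟩ := ProfiniteGrp.exist_openNormalSubgroup_sub_open_nhds_of_one hO1o h1O
  have hNc : IsCompact (N.toSubgroup : Set H0) :=
    (Subgroup.isClosed_of_isOpen N.toSubgroup N.isOpen').isCompact
  refine ⟨N.toSubgroup.map H0.subtype, ?_, ?_⟩
  · rw [Subgroup.coe_map]
    exact hH0o.isOpenEmbedding_subtypeVal.isOpenMap _ N.isOpen'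
  · filter_upwards [hP2] with y hy
    rintro _ ⟨g, hg, rfl⟩
    by_contra hne
    have hne' : g • y ≠ y := hne
    have hPk : ∀ k ∈ N.toSubgroup, k • y ∈ B m ∩ W0 ∩ W := fun k hk => hP (hO1 k (hN hk)).1 hy
    have hy0 : y ∈ B m ∩ W0 ∩ W := by
      have := hPk 1 N.toSubgroup.one_mem
      rwa [one_smul] at this
    have hgy := hPk g hg
    exact locX (H := H0) Ψ O hΨ N.toSubgroup hNc h₀ g hg y
      (fun k _ => hy0.1.2 _ (mem_univ _))
      (fun k hk => (interior_subset (hO1 k (hN hk)).2 : h₀ * k ∈ S m) y hy0.1 g hgy.1)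
      (hWg y hy0.2 (g : H) (mem_univ _) hgy.2 hne')


end Pool.Agent.X169.HT
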