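import Pool.Agent.Y489.SP.Stm
import Pool.Agent.Y983.SP.DEGP
import Pool.Agent.Y739.SP.APX
import Pool.Agent.Y236.SP.COMPT
import Pool.Agent.Y255.SP.HOMT
import Pool.Agent.Y147.SP.INT

/-! Invariant perturbations for a local action of a cyclic group of prime order. -/

set_option autoImplicit false

open Set Filter Topology Metric Function MeasureTheory

noncomputable section

namespace Pool.Agent.X169.HT

open Pool.Agent.Y485.HS Pool.Agent.Y489.SP

theorem homt : S_HOMT := Pool.Agent.Y255.SP.t_HOMT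

theorem degp : S_DEGP :=
  Pool.Agent.Y983.SP.DEGP.t_DEGP Pool.Agent.Y739.SP.t_APX homt Pool.Agent.Y236.SP.t_COMPT
    (Pool.Agent.Y147.SP.t_INT homt)

/-- a local action of the cyclic group of order `p` near the ball of radius four -/
structure CAct (p n : ℕ) (U : ZMod p → E n → E n) : Prop where
  cont : ∀ i, ContinuousOn (U i) (BB n)
  zero : ∀ x ∈ BB n, U 0 x = x
  add : ∀ i j, ∀ x ∈ closedBall (0 : E n) 3, U (i + j) x = U i (U j x)
  disp : ∀ i, ∀ x ∈ BB n, dist (U i x) x ≤ 1 / 4

/-- invariance -/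
def Inv {p n : ℕ} (U : ZMod p → E n → E n) (F : E n → E n) : Prop :=
  ∀ i, ∀ x ∈ closedBall (0 : E n) 3, F (U i x) = F x

theorem step {p n : ℕ} [Fact p.Prime] {U : ZMod p → E n → E n} (hU : CAct p n U)
    (F : E n → E n) (hF : ContinuousOn F (BB n)) (hI : Inv U F)
    (hn : ∀ x ∈ BB n, dist (F x) x ≤ 1 / 4) (Q : Set (E n)) (hQ : volume Q = 0)
    (x0 : E n) (r : ℝ) (hr : 0 < r) (hsub : closedBall x0 (2 * r) ⊆ closedBall 0 3)
    (hdis : ∀ i : ZMod p, i ≠ 0 → ∀ w ∈ closedBall x0 (2 * r), U i w ∉ closedBall x0 (2 * r))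
    (ε : ℝ) (hε : 0 < ε) :
    ∃ F' : E n → E n, ContinuousOn F' (BB n) ∧ Inv U F' ∧ (∀ x ∈ BB n, dist (F' x) (F x) ≤ ε) ∧
      ∀ w ∈ closedBall x0 r ∩ Q, F' w ≠ 0 := by
  classical
  have hp : 0 < p := (Fact.out : p.Prime).pos
  have hpR : (0 : ℝ) < p := by exact_mod_cast hp
  set η : ℝ := ε / (2 * p) with hη
  have hη0 : 0 < η := by positivity
  obtain ⟨G, hG1, -, hG2, -⟩ := Pool.Agent.Y739.SP.t_APX n F hF hn η hη0
  -- a generic constant
  obtain ⟨c, hc, hcQ⟩ : ∃ c : E n, ‖c‖ ≤ η ∧ ∀ w ∈ Q, G w + c ≠ 0 := by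
    have h1 : volume (G '' Q) = 0 :=
      addHaar_image_eq_zero_of_differentiableOn_of_addHaar_eq_zero volume
        (hG1.differentiable (by norm_num)).differentiableOn hQ
    by_contra hcon
    push Not at hcon
    have h2 : ball (0 : E n) η ⊆ G '' Q := by
      intro y hy
      obtain ⟨w, hw, hw2⟩ := hcon (-y) (by rw [norm_neg]; exact (mem_ball_zero_iff.1 hy).le)
      exact ⟨w, hw, by rw [← sub_eq_zero, sub_eq_add_neg]; exact hw2⟩
    have h3 := measure_mono_null h2 h1
    exact (isOpen_ball.measure_pos volume ⟨0, mem_ball_self hη0⟩).ne' h3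
  set ψ : E n → ℝ := fun w => max 0 (min 1 (2 - dist w x0 / r)) with hψ
  have hψc : Continuous ψ := by
    rw [hψ]
    fun_prop
  have hψ0 : ∀ w, w ∉ closedBall x0 (2 * r) → ψ w = 0 := by
    intro w hw
    rw [mem_closedBall, not_le] at hw
    have h1 : 2 < dist w x0 / r := by rwa [lt_div_iff₀ hr]
    rw [hψ]
    simp only
    rw [max_eq_left]
    exact (min_le_right _ _).trans (by linarith)
  have hψ1 : ∀ w ∈ closedBall x0 r, ψ w = 1 := by
    intro w hw
    rw [mem_closedBall] at hw
    have h1 : dist w x0 / r ≤ 1 := by rwa [div_le_one hr]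
    rw [hψ]
    simp only
    rw [min_eq_left (by linarith), max_eq_right (by norm_num)]
  have hψb : ∀ w, 0 ≤ ψ w ∧ ψ w ≤ 1 := fun w =>
    ⟨le_max_left _ _, max_le (by norm_num) (min_le_left _ _)⟩
  set D : E n → E n := fun w => ψ w • (G w + c - F w) with hD
  have hD0 : ∀ w, w ∉ closedBall x0 (2 * r) → D w = 0 := fun w hw => by
    rw [hD]
    simp only
    rw [hψ0 w hw, zero_smul]
  have hDc : Continuous D := by
    rw [continuous_iff_continuousAt]
    intro w
    by_cases hw : w ∈ ball (0 : E n) 4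
    · have h1 : ContinuousAt F w := hF.continuousAt
        (mem_of_superset (isOpen_ball.mem_nhds hw) ball_subset_closedBall)
      exact hψc.continuousAt.smul ((hG1.continuous.continuousAt.add continuousAt_const).sub h1)
    · have h2 : w ∉ closedBall x0 (2 * r) := by
        intro h3
        have h4 := hsub h3
        rw [mem_closedBall_zero_iff] at h4
        rw [mem_ball_zero_iff] at hw
        linarith
      have h5 : D =ᶠ[𝓝 w] fun _ => 0 := by
        filter_upwards [isClosed_closedBall.isOpen_compl.mem_nhds h2] with y hy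
        exact hD0 y hy
      exact continuousAt_const.congr h5.symm
  have hDb : ∀ w, ‖D w‖ ≤ 2 * η := by
    intro w
    by_cases hw : w ∈ closedBall x0 (2 * r)
    · have h1 := hG2 w (hsub hw)
      rw [dist_eq_norm] at h1
      rw [hD]
      simp only
      rw [norm_smul, Real.norm_of_nonneg (hψb w).1]
      have h2 : ‖G w + c - F w‖ ≤ 2 * η := by
        have e : G w + c - F w = (G w - F w) + c := by abel
        rw [e]
        refine (norm_add_le _ _).trans ?_
        linarith
      calc ψ w * ‖G w + c - F w‖ ≤ 1 * (2 * η) :=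
            mul_le_mul (hψb w).2 h2 (norm_nonneg _) (by norm_num)
        _ = 2 * η := one_mul _
    · rw [hD0 w hw, norm_zero]
      positivity
  refine ⟨fun w => F w + ∑ i : ZMod p, D (U i w), ?_, ?_, ?_, ?_⟩
  · refine hF.add ?_
    refine continuousOn_finsetSum _ fun i _ => ?_
    exact hDc.comp_continuousOn (hU.cont i)
  · intro j x hx
    simp only
    rw [hI j x hx]
    congr 1
    have h1 : ∀ i : ZMod p, D (U i (U j x)) = D (U (i + j) x) := fun i => by
      rw [hU.add i j x hx]
    simp only [h1]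
    exact Fintype.sum_equiv (Equiv.addRight j) _ _ fun i => rfl
  · intro x _
    simp only
    rw [dist_eq_norm, add_sub_cancel_left]
    refine (norm_sum_le _ _).trans ?_
    calc ∑ i : ZMod p, ‖D (U i x)‖ ≤ ∑ i : ZMod p, 2 * η := Finset.sum_le_sum fun i _ => hDb _
      _ = ε := by
        rw [Finset.sum_const, Finset.card_univ, ZMod.card, nsmul_eq_mul, hη]
        field_simp
  · rintro w ⟨hw, hwQ⟩
    have hw2 : w ∈ closedBall x0 (2 * r) := closedBall_subset_closedBall (by linarith) hw
    have hwB : w ∈ BB n := closedBall_subset_closedBall (by norm_num) (hsub hw2)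
    have h1 : ∑ i : ZMod p, D (U i w) = D w := by
      rw [Finset.sum_eq_single (0 : ZMod p)]
      · rw [hU.zero w hwB]
      · intro i _ hi
        exact hD0 _ (hdis i hi w hw2)
      · intro h
        exact absurd (Finset.mem_univ _) h
    simp only
    rw [h1, hD]
    simp only
    rw [hψ1 w hw, one_smul]
    have h2 : F w + (G w + c - F w) = G w + c := by abel
    rw [h2]
    exact hcQ w hwQ

/-- finitely many patches -/
theorem patches {p n : ℕ} [Fact p.Prime] {U : ZMod p → E n → E n} (hU : CAct p n U)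
    (F : E n → E n) (hF : ContinuousOn F (BB n)) (hI : Inv U F) (Q : Set (E n))
    (hQ : volume Q = 0) (hQc : IsClosed Q) (s : Finset (E n × ℝ))
    (hs : ∀ q ∈ s, 0 < q.2 ∧ closedBall q.1 (2 * q.2) ⊆ closedBall 0 3 ∧
      ∀ i : ZMod p, i ≠ 0 → ∀ w ∈ closedBall q.1 (2 * q.2), U i w ∉ closedBall q.1 (2 * q.2)) :
    ∀ ε : ℝ, 0 < ε → (∀ x ∈ BB n, dist (F x) x + ε ≤ 1 / 4) →
    ∃ F' : E n → E n, ContinuousOn F' (BB n) ∧ Inv U F' ∧ (∀ x ∈ BB n, dist (F' x) (F x) ≤ ε) ∧
      ∀ q ∈ s, ∀ w ∈ closedBall q.1 q.2 ∩ Q, F' w ≠ 0 := by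
  classical
  induction s using Finset.induction_on with
  | empty =>
    intro ε hε _
    exact ⟨F, hF, hI, fun x _ => by rw [dist_self]; exact hε.le, fun q hq => by simp at hq⟩
  | insert q s hqs ih =>
    intro ε hε hn
    obtain ⟨F1, hF1, hI1, hd1, hne1⟩ := ih (fun q hq => hs q (Finset.mem_insert_of_mem hq))
      (ε / 2) (by positivity) (fun x hx => by have := hn x hx; linarith)
    have hn1 : ∀ x ∈ BB n, dist (F1 x) x ≤ 1 / 4 := by
      intro x hx
      have h1 := hn x hx
      have h2 := hd1 x hx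
      have h3 := dist_triangle (F1 x) (F x) x
      linarith
    have hC : IsCompact (⋃ q ∈ s, closedBall q.1 q.2 ∩ Q) :=
      s.isCompact_biUnion fun q _ => (isCompact_closedBall _ _).inter_right hQc
    have hCB : (⋃ q ∈ s, closedBall q.1 q.2 ∩ Q) ⊆ BB n := by
      intro w hw
      simp only [mem_iUnion] at hw
      obtain ⟨q, hq, hw, -⟩ := hw
      obtain ⟨h1, h2, -⟩ := hs q (Finset.mem_insert_of_mem hq)
      exact closedBall_subset_closedBall (by norm_num)
        (h2 (closedBall_subset_closedBall (by linarith) hw))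
    obtain ⟨μ, hμ0, hμ⟩ := hC.exists_forall_le' (f := fun w => ‖F1 w‖) (hF1.mono hCB).norm
      (a := 0) (by
        intro w hw
        simp only [mem_iUnion] at hw
        obtain ⟨q, hq, hw⟩ := hw
        exact norm_pos_iff.2 (hne1 q hq w hw))
    obtain ⟨h1, h2, h3⟩ := hs q (Finset.mem_insert_self _ _)
    obtain ⟨F2, hF2, hI2, hd2, hne2⟩ := step hU F1 hF1 hI1 hn1 Q hQ q.1 q.2 h1 h2 h3
      (min (ε / 2) (μ / 2)) (by positivity)
    refine ⟨F2, hF2, hI2, fun x hx => ?_, ?_⟩
    · have e1 := hd1 x hx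
      have e2 := (hd2 x hx).trans (min_le_left _ _)
      have e3 := dist_triangle (F2 x) (F1 x) (F x)
      linarith
    · intro q' hq' w hw
      rcases Finset.mem_insert.1 hq' with rfl | hq''
      · exact hne2 w hw
      · have hwC : w ∈ ⋃ q ∈ s, closedBall q.1 q.2 ∩ Q := by
          simp only [mem_iUnion]
          exact ⟨q', hq'', hw⟩
        have e1 := hμ w hwC
        have e2 := (hd2 w (hCB hwC)).trans (min_le_right _ _)
        rw [dist_eq_norm] at e2
        intro hcon
        rw [hcon, zero_sub, norm_neg] at e2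
        linarith

end Pool.Agent.X169.HT
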